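import Pool.Agent.H11.M7.Ori2

set_option autoImplicit false
open Set Filter Topology Metric Complex
open scoped Real
open Pool.Agent.H81.Q1 (pt DDomain Approx IsJordanDomain IsArcs IsOuter)
open Pool.Agent.H82.Q1 (HH cHH IsChart posArc negArc)
open Pool.Agent.H42.MJ (IsComponent jTop GD)

/-! J19(b), part 3: approximating sequences exist. -/

namespace Pool.Agent.H11.M7

variable {D : Set ℂ} {a b : ℂ} {φ : ℂ → ℂ}

/-- the component of a vertex -/
lemma component_of {δ : ℝ} {u : ℤ × ℤ} (hu : pt δ u ∈ D) :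
    IsComponent D δ {v | (GD D δ).Reachable u v}
      {e | e ∈ (GD D δ).edgeSet ∧ ∀ w ∈ e, (GD D δ).Reachable u w} where
  sub := by
    intro v hv
    rcases hv with ⟨p⟩
    rcases p with _ | ⟨h, p⟩
    · exact hu
    · have h1 : (GD D δ).Reachable u v := ⟨SimpleGraph.Walk.cons h p⟩
      obtain ⟨w, hw⟩ : ∃ w, (GD D δ).Adj v w := by
        rcases eq_or_ne u v with rfl | hne
        · exact ⟨_, h⟩
        · obtain ⟨q⟩ := h1.symm
          rcases q with _ | ⟨h', q⟩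
          · exact absurd rfl hne
          · exact ⟨_, h'⟩
      exact hw.2 (left_mem_segment ℝ _ _)
  comp := by
    intro x hx v
    change (GD D δ).Reachable u x at hx
    exact ⟨fun h => hx.symm.trans h, fun h => hx.trans h⟩
  edges := by
    intro x y
    constructor
    · rintro ⟨h1, h2⟩
      exact ⟨h2 x (by simp), h1⟩
    · rintro ⟨h1, h2⟩
      refine ⟨h2, ?_⟩
      intro w hw
      rcases Sym2.mem_iff.1 hw with rfl | rfl
      · exact h1
      · exact SimpleGraph.Reachable.trans h1 h2.reachable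

lemma exists_dd (hD : IsJordanDomain D) (ha : a ∈ frontier D) (hb : b ∈ frontier D) (hab : a ≠ b)
    {ε : ℝ} (hε : 0 < ε) : ∃ (δ : ℝ) (X : DDomain), 0 < δ ∧ δ < ε ∧ IsComponent D δ X.V X.E ∧
      dist (pt δ X.α.1) a < ε ∧ dist (pt δ X.β.1) b < ε := by
  obtain ⟨z0, hz0⟩ := hD.2.1.nonempty
  have hd : 0 < dist a b := dist_pos.2 hab
  obtain ⟨r1, hr1, H1⟩ := Pool.Agent.H42.MJ.approach (jTop hD) hz0 ha
    (show 0 < min ε (dist a b / 2) by positivity)
  obtain ⟨r2, hr2, H2⟩ := Pool.Agent.H42.MJ.approach (jTop hD) hz0 hb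
    (show 0 < min ε (dist a b / 2) by positivity)
  obtain ⟨r3, hr3, H3⟩ := Metric.isOpen_iff.1 hD.1 z0 hz0
  set δ : ℝ := min (min r1 r2) (min r3 ε) / 4 with hδ
  have e0 : 0 < min (min r1 r2) (min r3 ε) := by positivity
  have e1 : min (min r1 r2) (min r3 ε) ≤ r1 := (min_le_left _ _).trans (min_le_left _ _)
  have e2 : min (min r1 r2) (min r3 ε) ≤ r2 := (min_le_left _ _).trans (min_le_right _ _)
  have e3 : min (min r1 r2) (min r3 ε) ≤ r3 := (min_le_right _ _).trans (min_le_left _ _)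
  have e4 : min (min r1 r2) (min r3 ε) ≤ ε := (min_le_right _ _).trans (min_le_right _ _)
  have hδ0 : 0 < δ := by positivity
  obtain ⟨u, hu⟩ := Pool.Agent.H42.MJ.exists_pt hδ0 z0
  have huD : pt δ u ∈ D := by
    apply H3
    rw [mem_ball, dist_eq_norm]
    linarith
  obtain ⟨va, qa, ha1, ha2, ha3⟩ := H1 δ hδ0 (by linarith) u (by linarith)
  obtain ⟨vb, qb, hb1, hb2, hb3⟩ := H2 δ hδ0 (by linarith) u (by linarith)
  have hX := component_of huD
  have hE : ∀ v q, ¬ Pool.Agent.H42.MJ.op D δ v q → Pool.Agent.H81.Q1.Corner.edge (v, q) ∉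
      {e | e ∈ (GD D δ).edgeSet ∧ ∀ w ∈ e, (GD D δ).Reachable u w} := by
    intro v q h1 h2
    exact h1 (Pool.Agent.H42.MJ.adj_dir.1 ((hX.edges v _).1 h2).2)
  have hDc : IsPreconnected Dᶜ := (Pool.Agent.H14.Jordan.compl_connected hD).isPreconnected
  have hne : va ≠ vb := by
    rintro rfl
    have h1 := lt_of_lt_of_le ha3 (min_le_right _ _)
    have h2 := lt_of_lt_of_le hb3 (min_le_right _ _)
    rw [← dist_eq_norm] at h1 h2
    have h3 := dist_triangle_left a b (pt δ va)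
    linarith
  refine ⟨δ, Pool.Agent.H42.MJ.toDD hδ0 hDc hD.2.2.1 hX (va, qa) (vb, qb) ha1 hb1
    (Pool.Agent.H42.MJ.noHole_of_component hδ0 hDc hD.2.2.1 hX _ ha1 (hE _ _ ha2))
    (Pool.Agent.H42.MJ.noHole_of_component hδ0 hDc hD.2.2.1 hX _ hb1 (hE _ _ hb2)) hne,
    hδ0, by linarith, hX, ?_, ?_⟩
  · rw [dist_eq_norm]
    exact lt_of_lt_of_le ha3 (min_le_left _ _)
  · rw [dist_eq_norm]
    exact lt_of_lt_of_le hb3 (min_le_left _ _)

lemma exists_seq_dom (hD : IsJordanDomain D) (ha : a ∈ frontier D) (hb : b ∈ frontier D)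
    (hab : a ≠ b) : ∃ (δ : ℕ → ℝ) (X : ℕ → DDomain), (∀ n, 0 < δ n) ∧ Tendsto δ atTop (𝓝 0) ∧
      (∀ n, IsComponent D (δ n) (X n).V (X n).E) ∧
      Tendsto (fun n => pt (δ n) (X n).α.1) atTop (𝓝 a) ∧
      Tendsto (fun n => pt (δ n) (X n).β.1) atTop (𝓝 b) := by
  have key : ∀ n : ℕ, ∃ (δ : ℝ) (X : DDomain), 0 < δ ∧ δ < 1 / ((n:ℝ) + 1) ∧
      IsComponent D δ X.V X.E ∧ dist (pt δ X.α.1) a < 1 / ((n:ℝ) + 1) ∧
      dist (pt δ X.β.1) b < 1 / ((n:ℝ) + 1) := fun n =>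
    exists_dd hD ha hb hab (by positivity)
  choose δ X h1 h2 h3 h4 h5 using key
  have hl : Tendsto (fun n : ℕ => 1 / ((n:ℝ) + 1)) atTop (𝓝 0) := tendsto_one_div_add_atTop_nhds_zero_nat
  refine ⟨δ, X, h1, squeeze_zero (fun n => (h1 n).le) (fun n => (h2 n).le) hl, h3, ?_, ?_⟩
  · rw [tendsto_iff_dist_tendsto_zero]
    exact squeeze_zero (fun n => dist_nonneg) (fun n => (h4 n).le) hl
  · rw [tendsto_iff_dist_tendsto_zero]
    exact squeeze_zero (fun n => dist_nonneg) (fun n => (h5 n).le) hl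

/-- **Approximating sequences exist.** -/
theorem nonempty_approx (hD : IsJordanDomain D) (h : IsChart D a b φ) :
    Nonempty (Approx D a b (posArc φ b) (negArc φ b)) := by
  have hA := isArcs_chart h
  have h1 : ({a, b} : Set ℂ) ⊆ frontier D := by
    rw [← hA.inter, ← hA.union]
    exact inter_subset_left.trans subset_union_left
  obtain ⟨δ, X, h2, h3, h4, h5, h6⟩ := exists_seq_dom hD (h1 (by simp)) (h1 (by simp))
    (Pool.Agent.H96.M7.chart_ne h)
  obtain ⟨A, -, -⟩ := corollaryA' hD h δ X h2 h3 h4 h5 h6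
  exact ⟨A⟩

end Pool.Agent.H11.M7
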