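import Mathlib
import Pool.Agent.H96.M7.Harnack
import Pool.Agent.H96.M7.Height
import Pool.Agent.H96.M7.Discrete

set_option autoImplicit false
open Set Filter Topology Metric
open Pool.Agent.H83.Lo (Hyd UH)

/-! # The capacity gained when a visible point is swallowed or visited (module M7, 5.5)

* `exists_chain` : bounded connected sets are chained by a bounded number of small steps.
* `harnack_conn` : Harnack inequality on connected sets with a uniform constant.
* `DChain.gain` : if a point `w` is joined to `p` inside the domain `U j` of a discrete Loewner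
  chain by a connected set whose `r`-neighbourhood lies in `U j`, and `w ∉ U k`, then
  `t k - t j ≥ κ`, with a constant depending only on the size, `r` and a lower bound for the height
  of `g 0 p`. -/

namespace Pool.Agent.H11.M7

open Pool.Agent.H96.M7

/-- A `δ`-chain of length `n` in `Γ` from `p` to `q`. -/
def IsChain' (Γ : Set ℂ) (δ : ℝ) (n : ℕ) (p q : ℂ) (x : ℕ → ℂ) : Prop :=
  x 0 = p ∧ x n = q ∧ (∀ i ≤ n, x i ∈ Γ) ∧ ∀ i < n, dist (x i) (x (i + 1)) ≤ δ

lemma exists_chain_aux {Γ : Set ℂ} (hΓ : IsPreconnected Γ) {δ : ℝ} (hδ : 0 < δ) {p q : ℂ}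
    (hp : p ∈ Γ) (hq : q ∈ Γ) : ∃ n x, IsChain' Γ δ n p q x := by
  refine hΓ.induction₂' (fun p q => ∃ n x, IsChain' Γ δ n p q x) ?_ ?_ hp hq
  · intro a ha
    have h1 : ∀ᶠ b in 𝓝[Γ] a, b ∈ ball a δ := mem_nhdsWithin_of_mem_nhds (ball_mem_nhds a hδ)
    filter_upwards [h1, self_mem_nhdsWithin] with b hb hbΓ
    have hd : dist b a < δ := hb
    constructor
    · refine ⟨1, fun i => if i = 0 then a else b, by simp, by simp, ?_, ?_⟩
      · intro i _
        dsimp only
        split_ifs
        · exact ha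
        · exact hbΓ
      · intro i hi
        have : i = 0 := by omega
        subst this
        simp only [if_true, zero_add, one_ne_zero, if_false]
        rw [dist_comm]
        exact hd.le
    · refine ⟨1, fun i => if i = 0 then b else a, by simp, by simp, ?_, ?_⟩
      · intro i _
        dsimp only
        split_ifs
        · exact hbΓ
        · exact ha
      · intro i hi
        have : i = 0 := by omega
        subst this
        simp only [if_true, zero_add, one_ne_zero, if_false]
        exact hd.le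
  · rintro a b c - - - ⟨n, x, hx0, hxn, hxΓ, hxd⟩ ⟨m, y, hy0, hym, hyΓ, hyd⟩
    refine ⟨n + m, fun i => if i ≤ n then x i else y (i - n), ?_, ?_, ?_, ?_⟩
    · simp [hx0]
    · dsimp only
      split_ifs with h
      · have hm : m = 0 := by omega
        subst hm
        rw [add_zero, hxn, ← hym, hy0]
      · rw [Nat.add_sub_cancel_left, hym]
    · intro i hi
      dsimp only
      split_ifs with h
      · exact hxΓ i h
      · exact hyΓ _ (by omega)
    · intro i hi
      dsimp only
      by_cases h1 : i + 1 ≤ n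
      · rw [if_pos (by omega), if_pos h1]
        exact hxd i (by omega)
      · rw [if_neg h1]
        by_cases h2 : i ≤ n
        · have hin : i = n := by omega
          subst hin
          rw [if_pos le_rfl, hxn, Nat.add_sub_cancel_left, ← hy0]
          exact hyd 0 (by omega)
        · rw [if_neg h2]
          have e : i + 1 - n = (i - n) + 1 := by omega
          rw [e]
          exact hyd (i - n) (by omega)

/-- Bounded connected sets are chained by boundedly many steps. -/
theorem exists_chain (M : ℝ) {δ : ℝ} (hδ : 0 < δ) : ∃ N : ℕ, ∀ Γ : Set ℂ, IsPreconnected Γ →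
    Γ ⊆ closedBall 0 M → ∀ p ∈ Γ, ∀ q ∈ Γ, ∃ n ≤ N, ∃ x, IsChain' Γ δ n p q x := by
  classical
  have htb : TotallyBounded (closedBall (0 : ℂ) M) :=
    (isCompact_closedBall (0 : ℂ) M).totallyBounded
  obtain ⟨s, hsf, hs⟩ := Metric.totallyBounded_iff.1 htb (δ / 2) (by positivity)
  refine ⟨2 * hsf.toFinset.card, ?_⟩
  intro Γ hΓ hΓM p hp q hq
  have hex := exists_chain_aux hΓ hδ hp hq
  set n := Nat.find hex with hn
  obtain ⟨x, hx0, hxn, hxΓ, hxd⟩ := Nat.find_spec hex
  rw [← hn] at hxn hxΓ hxd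
  have hmin : ∀ k < n, ¬ ∃ x, IsChain' Γ δ k p q x := fun k hk => Nat.find_min hex hk
  refine ⟨n, ?_, x, hx0, hxn, hxΓ, hxd⟩
  -- distant points
  have hfar : ∀ i j, i + 2 ≤ j → j ≤ n → δ < dist (x i) (x j) := by
    intro i j hij hj
    by_contra hcon
    push Not at hcon
    apply hmin (n - (j - i - 1)) (by omega)
    refine ⟨fun k => if k ≤ i then x k else x (k + (j - i - 1)), ?_, ?_, ?_, ?_⟩
    · simp [hx0]
    · dsimp only
      split_ifs with h
      · exfalso; omega
      · rw [← hxn]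
        congr 1
        omega
    · intro k hk
      dsimp only
      split_ifs with h
      · exact hxΓ k (by omega)
      · exact hxΓ _ (by omega)
    · intro k hk
      dsimp only
      by_cases h1 : k + 1 ≤ i
      · rw [if_pos (by omega), if_pos h1]
        exact hxd k (by omega)
      · rw [if_neg h1]
        by_cases h2 : k ≤ i
        · have : k = i := by omega
          subst this
          rw [if_pos le_rfl]
          have e : k + 1 + (j - k - 1) = j := by omega
          rw [e]
          exact hcon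
        · rw [if_neg h2]
          have e : k + 1 + (j - i - 1) = (k + (j - i - 1)) + 1 := by omega
          rw [e]
          exact hxd _ (by omega)
  -- choose centres
  have hc : ∀ i, i ≤ n → ∃ y ∈ s, x i ∈ ball y (δ / 2) := by
    intro i hi
    have h1 := hs (hΓM (hxΓ i hi))
    simpa only [mem_iUnion, exists_prop] using h1
  choose! y hy hxy using hc
  by_contra hcon
  push Not at hcon
  -- the points `x (2 i)`, `i ≤ card`
  have hmaps : ∀ i ∈ Finset.range (hsf.toFinset.card + 1), y (2 * i) ∈ hsf.toFinset := by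
    intro i hi
    rw [Finset.mem_range] at hi
    rw [Set.Finite.mem_toFinset]
    exact hy _ (by omega)
  obtain ⟨i, hi, j, hj, hij, heq⟩ := Finset.exists_ne_map_eq_of_card_lt_of_maps_to
    (by rw [Finset.card_range]; omega) hmaps
  rw [Finset.mem_range] at hi hj
  have key : ∀ i j, i < j → j ≤ hsf.toFinset.card → y (2 * i) = y (2 * j) → False := by
    intro i j hij hj heq
    have h1 := hxy (2 * i) (by omega)
    have h2 := hxy (2 * j) (by omega)
    rw [mem_ball] at h1 h2
    rw [heq] at h1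
    have h3 := hfar (2 * i) (2 * j) (by omega) (by omega)
    have h4 := dist_triangle_right (x (2 * i)) (x (2 * j)) (y (2 * j))
    linarith
  rcases lt_or_gt_of_ne hij with h | h
  · exact key i j h (by omega) heq
  · exact key j i h (by omega) heq.symm

/-- **Harnack inequality on connected sets**, with a uniform constant. -/
theorem harnack_conn (M : ℝ) {r : ℝ} (hr : 0 < r) : ∃ c > 0, ∀ (Γ U : Set ℂ) (f : ℂ → ℂ),
    IsPreconnected Γ → Γ ⊆ closedBall 0 M → (∀ z ∈ Γ, ball z r ⊆ U) → DifferentiableOn ℂ f U →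
    (∀ z ∈ U, 0 < (f z).im) → ∀ p ∈ Γ, ∀ q ∈ Γ, c * (f p).im ≤ (f q).im := by
  obtain ⟨N, hN⟩ := exists_chain M (half_pos hr)
  refine ⟨1 / 3 ^ N, by positivity, ?_⟩
  intro Γ U f hΓ hΓM hU hf hfU p hp q hq
  obtain ⟨n, hn, x, hx0, hxn, hxΓ, hxd⟩ := hN Γ hΓ hΓM p hp q hq
  have h1 := harnack_chain hf hfU (n := n) (p := x) (d := fun _ => r) (fun _ _ => hr)
    (fun i hi => hU _ (hxΓ i hi.le)) (fun i hi => by
      rw [← dist_eq_norm, dist_comm]
      exact hxd i hi)
  rw [hx0, hxn] at h1
  have h2 : 0 < (f p).im := hfU p (hU p hp (mem_ball_self hr))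
  calc 1 / 3 ^ N * (f p).im ≤ 1 / 3 ^ n * (f p).im := by
        gcongr
        norm_num
    _ = (f p).im / 3 ^ n := by ring
    _ ≤ _ := h1

variable {m : ℕ} {t V e f : ℕ → ℝ} {U : ℕ → Set ℂ} {g : ℕ → ℂ → ℂ}

/-- Lower bound for the height of a high point. -/
theorem DChain.high (D : DChain m t V e f U g) {j k : ℕ} (hjk : j ≤ k) (hk : k ≤ m) {p : ℂ}
    (hp : p ∈ U j) (h : 24 * (t k - t j) < (g j p).im ^ 2) :
    p ∈ U k ∧ (g j p).im / 2 ≤ (g k p).im := by
  obtain ⟨G, hG, hGg⟩ := D.quot' hjk hk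
  have h0 : 0 < (g j p).im := (D.bij j (hjk.trans hk)).mapsTo hp
  obtain ⟨h1, h2⟩ := Hyd_height hG h0 (by linarith)
  obtain ⟨z, hz, he⟩ := h1
  have hzp : z = p := (D.bij j (hjk.trans hk)).injOn (D.anti' hjk hk hz) hp he
  subst hzp
  rw [hGg z hz] at h2
  exact ⟨hz, h2⟩

/-- The capacity gained when a point leaves the domain. -/
theorem DChain.leave (D : DChain m t V e f U g) {j k : ℕ} (hjk : j ≤ k) (hk : k ≤ m) {w : ℂ}
    (hw : w ∈ U j) (hwk : w ∉ U k) : (g j w).im ^ 2 ≤ 12 * (t k - t j) := by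
  obtain ⟨G, hG, hGg⟩ := D.quot' hjk hk
  have h1 : g j w ∉ g j '' U k := by
    rintro ⟨z, hz, he⟩
    have := (D.bij j (hjk.trans hk)).injOn (D.anti' hjk hk hz) hw he
    exact hwk (this ▸ hz)
  have h2 := hG.height ((D.bij j (hjk.trans hk)).mapsTo hw) h1
  linarith

/-- **Gain of capacity.** -/
theorem gain (M : ℝ) {r Y : ℝ} (hr : 0 < r) (hY : 0 < Y) : ∃ κ > 0,
    ∀ {m : ℕ} {t V e f : ℕ → ℝ} {U : ℕ → Set ℂ} {g : ℕ → ℂ → ℂ}, DChain m t V e f U g →
    ∀ {j k : ℕ}, j ≤ k → k ≤ m → ∀ Γ : Set ℂ, IsPreconnected Γ → Γ ⊆ closedBall 0 M →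
    (∀ z ∈ Γ, ball z r ⊆ U j) → ∀ p ∈ Γ, Y ≤ (g 0 p).im → 24 * (t j - t 0) < Y ^ 2 →
    ∀ w ∈ Γ, w ∉ U k → κ ≤ t k - t j := by
  obtain ⟨c, hc, hH⟩ := harnack_conn M hr
  refine ⟨(c * (Y / 2)) ^ 2 / 12, by positivity, ?_⟩
  intro m t V e f U g D j k hjk hk Γ hΓ hΓM hU p hp hYp htY w hw hwk
  have hj := hjk.trans hk
  have hpj : p ∈ U j := hU p hp (mem_ball_self hr)
  have hwj : w ∈ U j := hU w hw (mem_ball_self hr)
  have h1 := DChain.high D (Nat.zero_le j) hj (D.anti' (Nat.zero_le j) hj hpj) (by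
    refine htY.trans_le ?_
    gcongr)
  have h2 := hH Γ (U j) (g j) hΓ hΓM hU (D.diff j hj) (fun z hz => (D.bij j hj).mapsTo hz) p hp
    w hw
  have h3 := DChain.leave D hjk hk hwj hwk
  have h4 : c * (Y / 2) ≤ (g j w).im := by
    refine le_trans ?_ h2
    have : Y / 2 ≤ (g j p).im := by linarith [h1.2]
    gcongr
  have h5 : (c * (Y / 2)) ^ 2 ≤ (g j w).im ^ 2 := by gcongr
  rw [div_le_iff₀ (by norm_num)]
  linarith

end Pool.Agent.H11.M7
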