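import Mathlib
import Pool.Agent.H82.Q1.SLE
import Pool.Agent.H83.Lo.Inj
import Pool.Agent.Q1.M3.Defs

set_option autoImplicit false
open Set Filter Topology Metric
open Pool.Agent.H82.Q1 (IsChart HH cHH)
open Pool.Agent.Q1.M3 (Cell mesh mesh_pos fat cfat AdjC)

/-! # Connected sets joining a visible cell to a fixed point (module M7, 5.5)

A chain of free cells of level `k` which leaves `φ(|w| ≤ Y)` is continued, from its first contact
with the crosscut `φ(|w| = Y)`, along this crosscut to `φ(iY)`. The resulting set stays at a distance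
from the boundary of `D`, from the explored set and from `b`, bounded below by a constant which
depends only on the chart, on `Y` and on the level. -/

namespace Pool.Agent.H11.M7

/-- The closed medium cell. -/
def cmed (o : ℂ) (q : Cell) : Set ℂ :=
  {z | o.re + (q.2.1 - 1 / 6) * mesh q.1 ≤ z.re ∧ z.re ≤ o.re + (q.2.1 + 7 / 6) * mesh q.1 ∧
    o.im + (q.2.2 - 1 / 6) * mesh q.1 ≤ z.im ∧ z.im ≤ o.im + (q.2.2 + 7 / 6) * mesh q.1}

lemma cmed_eq (o : ℂ) (q : Cell) : cmed o q =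
    Icc (o.re + (q.2.1 - 1 / 6) * mesh q.1) (o.re + (q.2.1 + 7 / 6) * mesh q.1) ×ℂ
    Icc (o.im + (q.2.2 - 1 / 6) * mesh q.1) (o.im + (q.2.2 + 7 / 6) * mesh q.1) := by
  ext z
  simp only [cmed, mem_ofPred_eq, Complex.mem_reProdIm, mem_Icc]
  tauto

lemma cmed_compact (o : ℂ) (q : Cell) : IsCompact (cmed o q) := by
  rw [cmed_eq]
  exact isCompact_Icc.reProdIm isCompact_Icc

lemma cmed_conn (o : ℂ) (q : Cell) : IsPreconnected (cmed o q) := by
  rw [cmed_eq]
  apply Convex.isPreconnected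
  exact ((convex_Icc _ _).linear_preimage Complex.reLm).inter
      ((convex_Icc _ _).linear_preimage Complex.imLm)

lemma fat_sub_cfat (o : ℂ) (q : Cell) : fat o q ⊆ cfat o q := by
  rintro z ⟨h1, h2, h3, h4⟩
  exact ⟨h1.le, h2.le, h3.le, h4.le⟩

lemma ball_sub_fat {o : ℂ} {q : Cell} {z : ℂ} (hz : z ∈ cmed o q) :
    ball z (mesh q.1 / 6) ⊆ fat o q := by
  intro x hx
  rw [mem_ball, dist_eq_norm] at hx
  have h1 := (Complex.abs_re_le_norm (x - z)).trans_lt hx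
  have h2 := (Complex.abs_im_le_norm (x - z)).trans_lt hx
  rw [Complex.sub_re, abs_lt] at h1
  rw [Complex.sub_im, abs_lt] at h2
  obtain ⟨k1, k2, k3, k4⟩ := hz
  refine ⟨?_, ?_, ?_, ?_⟩
  · have : (q.2.1 - 1 / 3 : ℝ) * mesh q.1 = (q.2.1 - 1 / 6) * mesh q.1 - mesh q.1 / 6 := by ring
    linarith
  · have : (q.2.1 + 4 / 3 : ℝ) * mesh q.1 = (q.2.1 + 7 / 6) * mesh q.1 + mesh q.1 / 6 := by ring
    linarith
  · have : (q.2.2 - 1 / 3 : ℝ) * mesh q.1 = (q.2.2 - 1 / 6) * mesh q.1 - mesh q.1 / 6 := by ring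
    linarith
  · have : (q.2.2 + 4 / 3 : ℝ) * mesh q.1 = (q.2.2 + 7 / 6) * mesh q.1 + mesh q.1 / 6 := by ring
    linarith

lemma cmed_sub_fat (o : ℂ) (q : Cell) : cmed o q ⊆ fat o q := fun z hz =>
  ball_sub_fat hz (mem_ball_self (by have := mesh_pos q.1; positivity))

lemma idx_close {x y : ℤ} {η u v : ℝ} (hη : 0 < η) (h1 : u + (x - 1 / 3) * η < v)
    (h2 : v < u + (y + 4 / 3) * η) : x ≤ y + 1 := by
  have h3 : (x - 1 / 3 : ℝ) * η < (y + 4 / 3) * η := by linarith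
  have h4 : (x - 1 / 3 : ℝ) < y + 4 / 3 := lt_of_mul_lt_mul_right h3 hη.le
  have h5 : (x : ℝ) < y + 2 := by linarith
  have h6 : x < y + 2 := by exact_mod_cast h5
  omega

lemma cmed_inter {o : ℂ} {q q' : Cell} (h : AdjC o q q') (hk : q.1 = q'.1) :
    (cmed o q ∩ cmed o q').Nonempty := by
  obtain ⟨z, ⟨a1, a2, a3, a4⟩, b1, b2, b3, b4⟩ := h
  rw [← hk] at b1 b2 b3 b4
  have hη := mesh_pos q.1
  set η := mesh q.1 with hηd
  have c1 := idx_close hη a1 b2
  have c2 := idx_close hη b1 a2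
  have c3 := idx_close hη a3 b4
  have c4 := idx_close hη b3 a4
  have key : ∀ x y : ℤ, x ≤ y + 1 → y ≤ x + 1 → ∀ u : ℝ,
      u + (x - 1 / 6) * η ≤ u + (max x y : ℤ) * η ∧ u + (max x y : ℤ) * η ≤ u + (x + 7 / 6) * η := by
    intro x y h1 h2 u
    have e1 : (x : ℝ) ≤ (max x y : ℤ) := by exact_mod_cast le_max_left x y
    have e2 : ((max x y : ℤ) : ℝ) ≤ x + 1 := by
      have : max x y ≤ x + 1 := max_le (by omega) h2
      exact_mod_cast this
    constructor
    · have : (x - 1 / 6 : ℝ) * η ≤ (max x y : ℤ) * η := by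
        apply mul_le_mul_of_nonneg_right _ hη.le
        linarith
      linarith
    · have : ((max x y : ℤ) : ℝ) * η ≤ (x + 7 / 6) * η := by
        apply mul_le_mul_of_nonneg_right _ hη.le
        linarith
      linarith
  refine ⟨⟨o.re + (max q.2.1 q'.2.1 : ℤ) * η, o.im + (max q.2.2 q'.2.2 : ℤ) * η⟩, ?_, ?_⟩
  · exact ⟨(key _ _ c1 c2 _).1, (key _ _ c1 c2 _).2, (key _ _ c3 c4 _).1, (key _ _ c3 c4 _).2⟩
  · have d1 := key q'.2.1 q.2.1 c2 c1 o.re
    have d2 := key q'.2.2 q.2.2 c4 c3 o.im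
    rw [max_comm] at d1
    rw [max_comm q'.2.2] at d2
    simp only [cmed, mem_ofPred_eq, ← hk, ← hηd]
    exact ⟨d1.1, d1.2, d2.1, d2.2⟩

lemma cmed_dist {o : ℂ} {q : Cell} {z z' : ℂ} (hz : z ∈ cmed o q) (hz' : z' ∈ cmed o q) :
    dist z z' ≤ 3 * mesh q.1 := by
  obtain ⟨a1, a2, a3, a4⟩ := hz
  obtain ⟨b1, b2, b3, b4⟩ := hz'
  have hη := mesh_pos q.1
  rw [dist_eq_norm]
  refine (Complex.norm_le_abs_re_add_abs_im _).trans ?_
  rw [Complex.sub_re, Complex.sub_im]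
  have h1 : |z.re - z'.re| ≤ 4 / 3 * mesh q.1 := by
    rw [abs_le]
    constructor <;> nlinarith
  have h2 : |z.im - z'.im| ≤ 4 / 3 * mesh q.1 := by
    rw [abs_le]
    constructor <;> nlinarith
  linarith

/-! ### The arc -/

lemma arc_eq {Y h : ℝ} (hh : 0 < h) (hY : h ≤ Y) : {z : ℂ | ‖z‖ = Y ∧ h ≤ z.im} =
    (fun x : ℝ => (⟨x, √(Y ^ 2 - x ^ 2)⟩ : ℂ)) '' Icc (-√(Y ^ 2 - h ^ 2)) (√(Y ^ 2 - h ^ 2)) := by
  have hY0 : 0 < Y := hh.trans_le hY
  ext z
  constructor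
  · rintro ⟨h1, h2⟩
    have h3 : z.re ^ 2 + z.im ^ 2 = Y ^ 2 := by
      rw [← h1, ← Complex.normSq_eq_norm_sq, Complex.normSq_apply]
      ring
    refine ⟨z.re, ?_, ?_⟩
    · rw [mem_Icc, ← abs_le]
      apply Real.abs_le_sqrt
      nlinarith
    · apply Complex.ext
      · rfl
      · simp only
        rw [← h3, add_sub_cancel_left, Real.sqrt_sq (by linarith)]
  · rintro ⟨x, hx, rfl⟩
    rw [mem_Icc, ← abs_le] at hx
    have h4 : 0 ≤ Y ^ 2 - h ^ 2 := by nlinarith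
    have h3 : x ^ 2 ≤ Y ^ 2 - h ^ 2 := by
      rw [← sq_abs, ← Real.sq_sqrt h4]
      gcongr
    constructor
    · have : ‖(⟨x, √(Y ^ 2 - x ^ 2)⟩ : ℂ)‖ ^ 2 = Y ^ 2 := by
        rw [← Complex.normSq_eq_norm_sq, Complex.normSq_apply]
        simp only
        rw [Real.mul_self_sqrt (by nlinarith)]
        ring
      exact (pow_left_inj₀ (norm_nonneg _) hY0.le two_ne_zero).1 this
    · simp only
      apply Real.le_sqrt_of_sq_le
      linarith

lemma arc_conn {Y h : ℝ} (hh : 0 < h) (hY : h ≤ Y) :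
    IsPreconnected {z : ℂ | ‖z‖ = Y ∧ h ≤ z.im} := by
  rw [arc_eq hh hY]
  apply isPreconnected_Icc.image
  apply Continuous.continuousOn
  have : (fun x : ℝ => (⟨x, √(Y ^ 2 - x ^ 2)⟩ : ℂ)) =
      fun x : ℝ => (x : ℂ) + (√(Y ^ 2 - x ^ 2) : ℝ) * Complex.I := by
    funext x
    apply Complex.ext <;> simp
  rw [this]
  fun_prop

lemma arc_compact {Y h : ℝ} : IsCompact {z : ℂ | ‖z‖ = Y ∧ h ≤ z.im} := by
  apply (isCompact_closedBall (0 : ℂ) Y).of_isClosed_subset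
  · exact (isClosed_eq continuous_norm continuous_const).inter
      (isClosed_le continuous_const Complex.continuous_im)
  · rintro z ⟨h1, -⟩
    rw [mem_closedBall_zero_iff]
    exact h1.le

lemma near_end {Y : ℝ} (hY : 0 < Y) {w : ℂ} (hw : ‖w‖ = Y) :
    ‖w - Y‖ ≤ 2 * |w.im| ∨ ‖w - (-Y : ℝ)‖ ≤ 2 * |w.im| := by
  have h3 : w.re ^ 2 + w.im ^ 2 = Y ^ 2 := by
    rw [← hw, ← Complex.normSq_eq_norm_sq, Complex.normSq_apply]
    ring
  have key : ∀ s : ℝ, s = w.re ∨ s = -w.re → 0 ≤ s → (Y - s) ^ 2 ≤ w.im ^ 2 := by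
    intro s hs hs0
    have h4 : s ^ 2 + w.im ^ 2 = Y ^ 2 := by
      rcases hs with rfl | rfl
      · exact h3
      · rw [neg_sq]; exact h3
    have h5 : s ≤ Y := by
      nlinarith [sq_nonneg w.im]
    nlinarith
  have fin : ∀ u : ℝ, (w.re - u) ^ 2 ≤ w.im ^ 2 → ‖w - u‖ ≤ 2 * |w.im| := by
    intro u hu
    refine (Complex.norm_le_abs_re_add_abs_im _).trans ?_
    rw [Complex.sub_re, Complex.sub_im, Complex.ofReal_re, Complex.ofReal_im, sub_zero]
    have := sq_le_sq.1 hu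
    linarith
  rcases le_total 0 w.re with h | h
  · left
    apply fin
    have := key w.re (Or.inl rfl) h
    nlinarith
  · right
    apply fin
    have := key (-w.re) (Or.inr rfl) (by linarith)
    nlinarith

/-! ### The chart -/

section

variable {D : Set ℂ} {a b : ℂ} {φ : ℂ → ℂ}

lemma HH_sub : HH ⊆ cHH := fun z hz => le_of_lt (show (0:ℝ) < z.im from hz)

lemma isOpen_HH : IsOpen HH := isOpen_lt continuous_const Complex.continuous_im

lemma isClosed_cHH : IsClosed cHH := isClosed_le continuous_const Complex.continuous_im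

lemma chart_open (h : IsChart D a b φ) : IsOpen D := by
  rw [← h.image]
  exact Pool.Agent.H83.Lo.isOpen_image isOpen_HH h.diff (h.inj.mono HH_sub)

lemma chart_image_open (h : IsChart D a b φ) {S : Set ℂ} (hS : IsOpen S) (hSH : S ⊆ HH) :
    IsOpen (φ '' S) :=
  Pool.Agent.H83.Lo.isOpen_image hS (h.diff.mono hSH) (h.inj.mono (hSH.trans HH_sub))

lemma chart_notMem (h : IsChart D a b φ) (x : ℝ) : φ x ∉ D := by
  rw [← h.image]
  rintro ⟨z, hz, he⟩
  have hx : (x : ℂ) ∈ cHH := by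
    change (0:ℝ) ≤ (x : ℂ).im
    simp
  have := h.inj (HH_sub hz) hx he
  have h2 : (0:ℝ) < z.im := hz
  rw [this] at h2
  simp at h2

lemma compact_cHH (R : ℝ) : IsCompact {z : ℂ | z ∈ cHH ∧ ‖z‖ ≤ R} := by
  have : {z : ℂ | z ∈ cHH ∧ ‖z‖ ≤ R} = closedBall 0 R ∩ cHH := by
    ext z
    rw [mem_inter_iff, mem_closedBall_zero_iff, mem_ofPred_eq]
    tauto
  rw [this]
  exact (isCompact_closedBall _ _).inter_right isClosed_cHH

lemma chart_compact (h : IsChart D a b φ) (R : ℝ) : IsCompact (φ '' {z : ℂ | z ∈ cHH ∧ ‖z‖ ≤ R}) :=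
  (compact_cHH R).image_of_continuousOn (h.cont.mono fun _ hz => hz.1)

/-- `D` is bounded. -/
lemma chart_bdd (h : IsChart D a b φ) : ∃ M : ℝ, D ⊆ closedBall 0 M := by
  have h1 := (Metric.tendsto_nhds.1 h.infty) 1 one_pos
  rw [eventually_inf_principal, Filter.Eventually, ← Bornology.isCobounded_def] at h1
  have h2 := Bornology.IsCobounded.compl h1
  rw [isBounded_iff_forall_norm_le] at h2
  obtain ⟨R, hR⟩ := h2
  obtain ⟨M, hM⟩ := (chart_compact h R).isBounded.exists_norm_le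
  refine ⟨max M (‖b‖ + 1), ?_⟩
  rw [← h.image]
  rintro _ ⟨z, hz, rfl⟩
  rw [mem_closedBall_zero_iff]
  by_cases hc : dist (φ z) b < 1
  · apply le_max_of_le_right
    have := norm_sub_norm_le (φ z) b
    rw [dist_eq_norm] at hc
    linarith
  · apply le_max_of_le_left
    apply hM
    refine ⟨z, ⟨HH_sub hz, hR z ?_⟩, rfl⟩
    intro hcon
    exact hc (hcon (HH_sub hz))

/-- The part of the crosscut near the boundary is close to the boundary. -/
lemma exists_height (h : IsChart D a b φ) {Y ε : ℝ} (hY : 0 < Y) (hε : 0 < ε) :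
    ∃ t : ℝ, 0 < t ∧ t < Y ∧ ∀ w ∈ HH, ‖w‖ = Y → w.im < t → ∃ p, p ∉ D ∧ dist (φ w) p < ε := by
  have hx : ∀ x : ℝ, ∃ d > 0, ∀ w ∈ cHH, dist w x < d → dist (φ w) (φ x) < ε := by
    intro x
    have hxc : (x : ℂ) ∈ cHH := by
      change (0:ℝ) ≤ (x : ℂ).im
      simp
    exact (Metric.continuousOn_iff.1 h.cont) x hxc ε hε
  obtain ⟨d1, hd1, H1⟩ := hx Y
  obtain ⟨d2, hd2, H2⟩ := hx (-Y)
  refine ⟨min (min (d1 / 3) (d2 / 3)) (Y / 2), by positivity, ?_, ?_⟩
  · exact (min_le_right _ _).trans_lt (by linarith)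
  · intro w hw hwY hwt
    have hw0 : (0:ℝ) < w.im := hw
    have e1 : w.im < d1 / 3 := hwt.trans_le ((min_le_left _ _).trans (min_le_left _ _))
    have e2 : w.im < d2 / 3 := hwt.trans_le ((min_le_left _ _).trans (min_le_right _ _))
    rcases near_end hY hwY with h3 | h3
    · refine ⟨φ Y, chart_notMem h Y, H1 w (HH_sub hw) ?_⟩
      rw [dist_eq_norm]
      rw [abs_of_pos hw0] at h3
      linarith
    · refine ⟨φ (-Y : ℝ), chart_notMem h (-Y), H2 w (HH_sub hw) ?_⟩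
      rw [dist_eq_norm]
      rw [abs_of_pos hw0] at h3
      linarith

/-- Points of `D` which are not close to `b`. -/
lemma exists_far (h : IsChart D a b φ) {ε : ℝ} (hε : 0 < ε) : ∃ Y₀ > 0, ∀ Y ≥ Y₀, ∀ z ∈ D,
    ε ≤ dist z b → z ∈ φ '' {z | z ∈ HH ∧ ‖z‖ ≤ Y / 2} := by
  have h1 := (Metric.tendsto_nhds.1 h.infty) ε hε
  rw [eventually_inf_principal, Filter.Eventually, ← Bornology.isCobounded_def] at h1
  have h2 := Bornology.IsCobounded.compl h1
  rw [isBounded_iff_forall_norm_le] at h2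
  obtain ⟨R, hR⟩ := h2
  refine ⟨2 * |R| + 1, by positivity, ?_⟩
  intro Y hY z hz hzb
  rw [← h.image] at hz
  obtain ⟨v, hv, rfl⟩ := hz
  refine ⟨v, ⟨hv, ?_⟩, rfl⟩
  have h3 : ‖v‖ ≤ R := by
    apply hR
    intro hcon
    have := hcon (HH_sub hv)
    linarith
  have := le_abs_self R
  linarith

lemma mesh_lim : Tendsto mesh atTop (𝓝 0) := by
  unfold mesh
  exact tendsto_pow_atTop_nhds_zero_of_lt_one (by norm_num) (by norm_num)

lemma mesh_anti {k k' : ℕ} (h : k ≤ k') : mesh k' ≤ mesh k := by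
  unfold mesh
  exact pow_le_pow_of_le_one (by norm_num) (by norm_num) h

/-- **Paths from visible cells to `φ (iY)`.** -/
theorem exists_path (h : IsChart D a b φ) {Y : ℝ} (hY : 0 < Y) :
    ∃ κ > 0, (∀ z ∈ φ '' {z | z ∈ cHH ∧ ‖z‖ ≤ Y}, 4 * κ ≤ dist z b) ∧ ∃ M : ℝ, ∃ k₀ : ℕ,
      3 * mesh k₀ ≤ κ ∧ ∀ k ≥ k₀, ∃ r > 0, ∀ (o : ℂ) (n : ℕ) (q : ℕ → Cell) (K : Set ℂ)
      (w : ℂ), (∀ l ≤ n, (q l).1 = k ∧ cfat o (q l) ⊆ D ∧ Disjoint (fat o (q l)) K) →
      (∀ l < n, AdjC o (q l) (q (l + 1))) →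
      K ∩ D ⊆ φ '' {z | z ∈ cHH ∧ ‖z‖ ≤ Y / 2} →
      w ∈ cmed o (q 0) → w ∈ φ '' {z | z ∈ HH ∧ ‖z‖ < Y} →
      (∃ z ∈ cmed o (q n), z ∉ φ '' {z | z ∈ HH ∧ ‖z‖ < Y}) →
      ∃ Γ : Set ℂ, IsCompact Γ ∧ IsPreconnected Γ ∧ w ∈ Γ ∧ φ (Y * Complex.I) ∈ Γ ∧
        Γ ⊆ closedBall 0 M ∧ ∀ z ∈ Γ, closedBall z r ⊆ D ∧ Disjoint (closedBall z r) K ∧
          Disjoint (closedBall z r) (closedBall b κ) := by
  obtain ⟨M, hM⟩ := chart_bdd h
  -- distance to `b`
  obtain ⟨κ, hκ, hκb⟩ : ∃ κ > 0, ∀ z ∈ φ '' {z | z ∈ cHH ∧ ‖z‖ ≤ Y}, 4 * κ ≤ dist z b := by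
    have h1 : Disjoint (φ '' {z | z ∈ cHH ∧ ‖z‖ ≤ Y}) {b} := by
      rw [Set.disjoint_singleton_right]
      rintro ⟨z, hz, he⟩
      exact h.ne ⟨z, hz.1, he⟩
    obtain ⟨d, hd, hd2⟩ := Metric.exists_pos_forall_lt_edist (chart_compact h Y)
      isClosed_singleton h1
    refine ⟨d / 4, by positivity, fun z hz => ?_⟩
    have h2 := hd2 z hz b rfl
    rw [edist_nndist] at h2
    have h3 : d < nndist z b := by exact_mod_cast h2
    rw [dist_nndist]
    have h4 : (d : ℝ) < nndist z b := by exact_mod_cast h3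
    linarith
  obtain ⟨k₀, hk₀⟩ : ∃ k₀, 3 * mesh k₀ ≤ κ := by
    have h1 := (mesh_lim.const_mul 3)
    rw [mul_zero] at h1
    exact (h1.eventually_le_const hκ).exists
  refine ⟨κ, hκ, hκb, M, k₀, hk₀, ?_⟩
  intro k hk
  have hmk : 3 * mesh k ≤ κ := by
    have := mesh_anti hk
    linarith
  have hη := mesh_pos k
  obtain ⟨t, ht0, htY, ht⟩ := exists_height h hY (show 0 < mesh k / 6 by positivity)
  -- the arc
  set S : Set ℂ := {z : ℂ | ‖z‖ = Y ∧ t ≤ z.im} with hS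
  have hSH : S ⊆ HH := fun z hz => lt_of_lt_of_le ht0 hz.2
  have hAc : IsCompact (φ '' S) := arc_compact.image_of_continuousOn
    (h.diff.continuousOn.mono hSH)
  have hAp : IsPreconnected (φ '' S) := (arc_conn ht0 htY.le).image _
    (h.diff.continuousOn.mono hSH)
  have hAD : φ '' S ⊆ D := by
    rw [← h.image]
    exact image_mono hSH
  have hAO : φ '' S ⊆ D \ φ '' {z | z ∈ cHH ∧ ‖z‖ ≤ Y / 2} := by
    rintro _ ⟨z, hz, rfl⟩
    refine ⟨hAD ⟨z, hz, rfl⟩, ?_⟩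
    rintro ⟨z', hz', he⟩
    have := h.inj hz'.1 (HH_sub (hSH hz)) he
    have h1 := hz'.2
    rw [this, hz.1] at h1
    linarith
  obtain ⟨r₁, hr₁, hr₁A⟩ := hAc.exists_cthickening_subset_open
    ((chart_open h).sdiff (chart_compact h (Y / 2)).isClosed) hAO
  refine ⟨min r₁ (min (mesh k / 12) κ), by positivity, ?_⟩
  set r := min r₁ (min (mesh k / 12) κ) with hr
  have hrr₁ : r ≤ r₁ := min_le_left _ _
  have hrη : r ≤ mesh k / 12 := (min_le_right _ _).trans (min_le_left _ _)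
  have hrκ : r ≤ κ := (min_le_right _ _).trans (min_le_right _ _)
  intro o n q K w hq hadj hKD hw hwB hout
  classical
  -- first cell meeting the crosscut
  set BY : Set ℂ := φ '' {z | z ∈ HH ∧ ‖z‖ < Y} with hBY
  set OY : Set ℂ := φ '' {z | z ∈ HH ∧ Y < ‖z‖} with hOY
  set CY : Set ℂ := φ '' {z | z ∈ HH ∧ ‖z‖ = Y} with hCY
  have hBo : IsOpen BY := chart_image_open h
    (isOpen_HH.inter (isOpen_lt continuous_norm continuous_const)) inter_subset_left
  have hOo : IsOpen OY := chart_image_open h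
    (isOpen_HH.inter (isOpen_lt continuous_const continuous_norm)) inter_subset_left
  have hcov : ∀ z ∈ D, z ∈ BY ∨ z ∈ CY ∨ z ∈ OY := by
    intro z hz
    rw [← h.image] at hz
    obtain ⟨v, hv, rfl⟩ := hz
    rcases lt_trichotomy ‖v‖ Y with h1 | h1 | h1
    · exact Or.inl ⟨v, ⟨hv, h1⟩, rfl⟩
    · exact Or.inr (Or.inl ⟨v, ⟨hv, h1⟩, rfl⟩)
    · exact Or.inr (Or.inr ⟨v, ⟨hv, h1⟩, rfl⟩)
  have hBO : Disjoint BY OY := by
    rw [Set.disjoint_left]
    rintro _ ⟨v, ⟨hv, hv2⟩, rfl⟩ ⟨v', ⟨hv', hv2'⟩, he⟩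
    have := h.inj (HH_sub hv') (HH_sub hv) he
    rw [this] at hv2'
    linarith
  have hcD : ∀ l ≤ n, cmed o (q l) ⊆ D := fun l hl =>
    (cmed_sub_fat o (q l)).trans ((fat_sub_cfat o (q l)).trans (hq l hl).2.1)
  -- a cell which does not meet the crosscut and meets `BY` is contained in `BY`
  have hstay : ∀ l ≤ n, Disjoint (cmed o (q l)) CY → (cmed o (q l) ∩ BY).Nonempty →
      cmed o (q l) ⊆ BY := by
    intro l hl hd hne
    apply (cmed_conn o (q l)).subset_left_of_subset_union hBo hOo hBO _ hne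
    intro z hz
    rcases hcov z (hcD l hl hz) with h1 | h1 | h1
    · exact Or.inl h1
    · exact absurd h1 (Set.disjoint_left.1 hd hz)
    · exact Or.inr h1
  have hex : ∃ i, i ≤ n ∧ ¬ Disjoint (cmed o (q i)) CY := by
    by_contra hcon
    push Not at hcon
    have hall : ∀ l ≤ n, cmed o (q l) ⊆ BY := by
      intro l
      induction l with
      | zero =>
        intro hl
        exact hstay 0 hl (hcon 0 hl) ⟨w, hw, hwB⟩
      | succ l ih =>
        intro hl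
        obtain ⟨x, hx1, hx2⟩ := cmed_inter (hadj l hl)
          (by rw [(hq l (by omega)).1, (hq (l + 1) hl).1])
        exact hstay (l + 1) hl (hcon (l + 1) hl) ⟨x, hx2, ih (by omega) hx1⟩
    obtain ⟨z, hz, hz2⟩ := hout
    exact hz2 (hall n le_rfl hz)
  obtain ⟨i, ⟨hin, hi⟩, hmin⟩ : ∃ i, (i ≤ n ∧ ¬ Disjoint (cmed o (q i)) CY) ∧
      ∀ l < i, ¬ (l ≤ n ∧ ¬ Disjoint (cmed o (q l)) CY) :=
    ⟨Nat.find hex, Nat.find_spec hex, fun l hl => Nat.find_min hex hl⟩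
  have hbef : ∀ l < i, cmed o (q l) ⊆ BY := by
    intro l
    induction l with
    | zero =>
      intro hl
      apply hstay 0 (by omega) _ ⟨w, hw, hwB⟩
      by_contra hc
      exact hmin 0 hl ⟨by omega, hc⟩
    | succ l ih =>
      intro hl
      obtain ⟨x, hx1, hx2⟩ := cmed_inter (hadj l (by omega))
        (by rw [(hq l (by omega)).1, (hq (l + 1) (by omega)).1])
      apply hstay (l + 1) (by omega) _ ⟨x, hx2, ih (by omega) hx1⟩
      by_contra hc
      exact hmin (l + 1) hl ⟨by omega, hc⟩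
  obtain ⟨x, hx1, hx2⟩ := Set.not_disjoint_iff.1 hi
  -- the contact point belongs to the arc
  have hxS : x ∈ φ '' S := by
    obtain ⟨v, ⟨hv, hvY⟩, rfl⟩ := hx2
    refine ⟨v, ⟨hvY, ?_⟩, rfl⟩
    by_contra hc
    push Not at hc
    obtain ⟨p, hpD, hp⟩ := ht v hv hvY hc
    apply hpD
    apply (hq i hin).2.1
    apply fat_sub_cfat
    apply ball_sub_fat hx1
    rw [mem_ball, dist_comm, (hq i hin).1]
    exact hp
  set C : Set ℂ := ⋃ l ∈ Iic i, cmed o (q l) with hC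
  have hCp : IsPreconnected C := by
    apply IsPreconnected.biUnion_of_chain ordConnected_Iic
    · intro l _
      exact cmed_conn o (q l)
    · intro l hl hl2
      change l + 1 ≤ i at hl2
      change (cmed o (q l) ∩ cmed o (q (l + 1))).Nonempty
      exact cmed_inter (hadj l (by omega)) (by rw [(hq l (by omega)).1, (hq (l + 1) (by omega)).1])
  have hCc : IsCompact C := (finite_Iic i).isCompact_biUnion fun l _ => cmed_compact o (q l)
  have hxC : x ∈ C := mem_biUnion (mem_Iic.2 le_rfl) hx1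
  have hIS : (Y * Complex.I : ℂ) ∈ S := by
    constructor
    · rw [norm_mul, Complex.norm_I, mul_one, Complex.norm_real, Real.norm_eq_abs, abs_of_pos hY]
    · have : (Y * Complex.I : ℂ).im = Y := by simp
      rw [this]
      exact htY.le
  refine ⟨C ∪ φ '' S, hCc.union hAc, hCp.union x hxC hxS hAp,
    Or.inl (mem_biUnion (mem_Iic.2 (Nat.zero_le i)) hw), Or.inr ⟨_, hIS, rfl⟩, ?_, ?_⟩
  · apply union_subset _ (hAD.trans hM)
    apply iUnion₂_subset
    intro l hl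
    exact (hcD l ((mem_Iic.1 hl).trans hin)).trans hM
  · have hbd : ∀ z, 3 * κ ≤ dist z b → Disjoint (closedBall z r) (closedBall b κ) := by
      intro z hz
      apply closedBall_disjoint_closedBall
      linarith
    rintro z (hz | hz)
    · obtain ⟨l, hl, hzl⟩ := mem_iUnion₂.1 hz
      rw [mem_Iic] at hl
      have hln := hl.trans hin
      have hsub : closedBall z r ⊆ fat o (q l) := by
        refine Subset.trans ?_ (ball_sub_fat hzl)
        rw [(hq l hln).1]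
        apply closedBall_subset_ball
        linarith
      refine ⟨hsub.trans ((fat_sub_cfat o (q l)).trans (hq l hln).2.1),
        (hq l hln).2.2.mono_left hsub, hbd z ?_⟩
      rcases hl.lt_or_eq with h1 | h1
      · have h2 := hbef l h1 hzl
        obtain ⟨v, ⟨hv, hvY⟩, rfl⟩ := h2
        have := hκb (φ v) ⟨v, ⟨HH_sub hv, hvY.le⟩, rfl⟩
        linarith
      · subst h1
        have h3 := cmed_dist hx1 hzl
        rw [(hq l hln).1] at h3
        obtain ⟨v, ⟨hv, hvY⟩, rfl⟩ := hx2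
        have h4 := hκb (φ v) ⟨v, ⟨HH_sub hv, hvY.le⟩, rfl⟩
        have h5 := dist_triangle (φ v) z b
        linarith
    · have hsub : closedBall z r ⊆ D \ φ '' {z | z ∈ cHH ∧ ‖z‖ ≤ Y / 2} := by
        refine Subset.trans ?_ hr₁A
        exact (closedBall_subset_closedBall hrr₁).trans (closedBall_subset_cthickening hz r₁)
      refine ⟨hsub.trans sdiff_subset, ?_, hbd z ?_⟩
      · rw [Set.disjoint_left]
        intro y hy hyK
        exact (hsub hy).2 (hKD ⟨hyK, (hsub hy).1⟩)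
      · obtain ⟨v, ⟨hvY, hvt⟩, rfl⟩ := hz
        have := hκb (φ v) ⟨v, ⟨HH_sub (hSH ⟨hvY, hvt⟩), hvY.le⟩, rfl⟩
        linarith

end

end Pool.Agent.H11.M7
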