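import Mathlib
import Pool.Agent.H11.M7.Path
import Pool.Agent.H11.M7.Gain
import Pool.Agent.Q1.M3.State
import Pool.Agent.H82.Q1.M7.Iface

set_option autoImplicit false
open Set Filter Topology Metric

/-! # The connected set of a gain (module M7, 5.5) -/

namespace Pool.Agent.H11.M7

open Pool.Agent.H75.Perc Pool.Agent.H75.TwoArm Pool.Agent.H75.Four Pool.Agent.H69.Q1
open Pool.Agent.H81.Q1 (pt DDomain Approx IsJordanDomain IsArcs)
open Pool.Agent.Q1.M3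
open Pool.Agent.H82.Q1 (IsChart HH cHH)
open Pool.Agent.H82.Q1.M7 (Gain medc)

lemma exists_seq {α : Type*} {r : α → α → Prop} {x y : α} (h : Relation.ReflTransGen r x y) :
    ∃ (n : ℕ) (f : ℕ → α), f 0 = x ∧ f n = y ∧ ∀ i < n, r (f i) (f (i + 1)) := by
  induction h using Relation.ReflTransGen.head_induction_on with
  | refl => exact ⟨0, fun _ => y, rfl, rfl, fun i hi => absurd hi (Nat.not_lt_zero _)⟩
  | @head u v huv _ ih =>
    obtain ⟨n, f, h0, hn, hf⟩ := ih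
    refine ⟨n + 1, fun i => if i = 0 then u else f (i - 1), by simp, by simp [hn], ?_⟩
    intro i hi
    rcases Nat.eq_zero_or_pos i with rfl | hpos
    · simp [h0, huv]
    · have e1 : i + 1 - 1 = (i - 1) + 1 := by omega
      simp only [hpos.ne', if_false, Nat.succ_ne_zero, e1]
      exact hf (i - 1) (by omega)

section

variable {D : Set ℂ} {a b : ℂ} {A₁ A₂ : Set ℂ}

/-- The points of the path up to the time `s`. -/
def past (A : Approx D a b A₁ A₂) (n : ℕ) (ω : Finset (ℤ × ℤ)) (s : ℕ) : Set ℂ :=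
  {z | ∃ u ≤ s, z = pt (A.δ n) (vx ((X0 A n).cor ω u))}

lemma past_disj {A : Approx D a b A₁ A₂} {n : ℕ} {ω : Finset (ℤ × ℤ)} {s : ℕ}
    (hs : 0 < s) {o : ℂ} {q : Cell}
    (hq : Free D (A.δ n) o ((X0 A n).E \ Rules.metE (X0 A n) ω s) q) :
    Disjoint (fat o q) (past A n ω s) := by
  have key : ∀ u < s, ∀ v, plab ((X0 A n).cor ω u) ∈ star1 v → v ∉ verts (A.δ n) o q := by
    intro u hu v hv hmem
    have h1 := hq.2 (star1_sub_star hmem hv)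
    rw [Finset.mem_sdiff, Rules.mem_metE] at h1
    exact h1.2 ⟨h1.1, u, hu, rfl⟩
  rw [Set.disjoint_left]
  rintro z hz ⟨u, hu, rfl⟩
  rw [← mem_verts (A.pos n)] at hz
  rcases hu.lt_or_eq with h1 | h1
  · exact key u h1 _ (plab_star1 _) hz
  · obtain ⟨u', rfl⟩ : ∃ u', u = u' + 1 := ⟨u - 1, by omega⟩
    refine key u' (by omega) _ ?_ hz
    rw [(X0 A n).cor_succ]
    exact plab_star1_pv _ _

lemma fat_dist {o : ℂ} {q : Cell} {z z' : ℂ} (hz : z ∈ cmed o q) (hz' : z' ∈ fat o q) :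
    dist z z' ≤ 3 * mesh q.1 := by
  obtain ⟨a1, a2, a3, a4⟩ := hz
  obtain ⟨b1, b2, b3, b4⟩ := hz'
  have hη := mesh_pos q.1
  rw [dist_eq_norm]
  refine (Complex.norm_le_abs_re_add_abs_im _).trans ?_
  rw [Complex.sub_re, Complex.sub_im]
  have h1 : |z.re - z'.re| ≤ 3 / 2 * mesh q.1 := by
    rw [abs_le]
    constructor <;> nlinarith
  have h2 : |z.im - z'.im| ≤ 3 / 2 * mesh q.1 := by
    rw [abs_le]
    constructor <;> nlinarith
  linarith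

lemma corner_cmed (o : ℂ) (q : Cell) : (⟨o.re + q.2.1 * mesh q.1, o.im + q.2.2 * mesh q.1⟩ : ℂ) ∈
    cmed o q := by
  have hη := mesh_pos q.1
  refine ⟨?_, ?_, ?_, ?_⟩ <;> simp only <;> nlinarith

variable {φ : ℂ → ℂ}

/-- **The connected set of a gain.** -/
theorem exists_gamma (h : IsChart D a b φ) {ε Y : ℝ} (hε : 0 < ε) (hY : 0 < Y)
    (hYb : ∀ z ∈ D, ε ≤ dist z b → z ∈ φ '' {z | z ∈ HH ∧ ‖z‖ ≤ Y / 2}) :
    ∃ κ > 0, ∃ M : ℝ, ∃ k₀ : ℕ, ∀ k ≥ k₀, ∃ r > 0,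
      ∀ (A : Approx D a b A₁ A₂) (r1 : ℝ) (B : Base A r1), r1 ≤ κ → ∀ n, A.δ n ≤ r →
      ∀ (ω : Finset (ℤ × ℤ)) (s t : ℕ), 0 < s →
      (∀ u ≤ t, 2 * ε ≤ dist (pt (A.δ n) (vx ((X0 A n).cor ω u))) b) →
      Gain B k n ω s t →
      ∃ Γ : Set ℂ, IsCompact Γ ∧ IsPreconnected Γ ∧ φ (Y * Complex.I) ∈ Γ ∧
        Γ ⊆ closedBall 0 M ∧ (∀ z ∈ Γ, closedBall z r ⊆ D ∧
          Disjoint (closedBall z r) (closedBall b κ) ∧ Disjoint (closedBall z r) (past A n ω s)) ∧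
        ∃ i, s ≤ i ∧ i < t ∧ pt (A.δ n) (vx ((X0 A n).cor ω i)) ∈ Γ := by
  obtain ⟨κ, hκ, hκb, M, k₀, hk₀, H⟩ := exists_path h hY
  refine ⟨κ, hκ, M + κ, k₀, ?_⟩
  intro k hk
  obtain ⟨r, hr, Hr⟩ := H k hk
  refine ⟨min (min (r / 2) ε) κ, by positivity, ?_⟩
  intro A r1 B hr1 n hn ω s t hs hfar hgain
  set ρ := min (min (r / 2) ε) κ with hρ
  have hρr : ρ ≤ r / 2 := (min_le_left _ _).trans (min_le_left _ _)
  have hρε : ρ ≤ ε := (min_le_left _ _).trans (min_le_right _ _)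
  have hρκ : ρ ≤ κ := min_le_right _ _
  have hρ0 : 0 < ρ := by positivity
  obtain ⟨M', hM'⟩ := chart_bdd h
  have hDb : Bornology.IsBounded D := isBounded_closedBall.subset hM'
  obtain ⟨q, hq, v, hv, i, hsi, hit, hi⟩ := hgain
  rw [mem_Uk hDb] at hq
  obtain ⟨q', hch, hq'k, hq'F, hq'b⟩ := hq
  obtain ⟨m, f, hf0, hfm, hf⟩ := exists_seq hch
  have hall : ∀ l ≤ m, (f l).1 = k ∧ Free D (A.δ n) B.o
      ((X0 A n).E \ Rules.metE (X0 A n) ω s) (f l) := by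
    intro l hl
    rcases hl.lt_or_eq with h1 | h1
    · exact ⟨(hf l h1).2.1, (hf l h1).2.2⟩
    · subst h1
      rw [hfm]
      exact ⟨hq'k, hq'F⟩
  set w : ℂ := pt (A.δ n) v with hw
  have hwm : w ∈ cmed B.o (f 0) := by
    rw [hf0]
    exact ⟨hv.1.le, hv.2.1.le, hv.2.2.1.le, hv.2.2.2.le⟩
  have hwD : w ∈ D := (hall 0 (Nat.zero_le _)).2.1 (fat_sub_cfat _ _ (cmed_sub_fat _ _ hwm))
  set w' : ℂ := pt (A.δ n) (vx ((X0 A n).cor ω i)) with hw'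
  have hww : dist w w' ≤ A.δ n := dist_of_star1 (A.pos n) hi (plab_star1 _)
  have hw'b := hfar i hit.le
  rw [← hw'] at hw'b
  have hwb : ε ≤ dist w b := by
    have := dist_triangle w' w b
    rw [dist_comm w' w] at this
    linarith
  obtain ⟨x, hx, hxw⟩ := hYb w hwD hwb
  have hwB : w ∈ φ '' {z | z ∈ HH ∧ ‖z‖ < Y} := ⟨x, ⟨hx.1, by linarith [hx.2]⟩, hxw⟩
  have hKD : past A n ω s ∩ D ⊆ φ '' {z | z ∈ cHH ∧ ‖z‖ ≤ Y / 2} := by
    rintro z ⟨⟨u, hu, rfl⟩, hzD⟩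
    obtain ⟨y, hy, hyz⟩ := hYb _ hzD (by
      have := hfar u (by omega)
      linarith)
    exact ⟨y, ⟨HH_sub hy.1, hy.2⟩, hyz⟩
  have hout : ∃ z ∈ cmed B.o (f m), z ∉ φ '' {z | z ∈ HH ∧ ‖z‖ < Y} := by
    refine ⟨_, corner_cmed B.o (f m), ?_⟩
    rintro ⟨y, hy, hye⟩
    have h1 := hκb (φ y) ⟨y, ⟨HH_sub hy.1, hy.2.le⟩, rfl⟩
    rw [hye] at h1
    rw [hfm] at h1
    obtain ⟨p, hp1, hp2⟩ := hq'b
    have h2 : dist (⟨B.o.re + q'.2.1 * mesh q'.1, B.o.im + q'.2.2 * mesh q'.1⟩ : ℂ) p ≤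
        3 * mesh k := by
      have := fat_dist (corner_cmed B.o q') hp1
      exact this.trans_eq (by rw [hq'k])
    have h3 := (B.subQ 0 B.qb B.qb_mem (fat_sub_cfat _ _ hp2)).2
    rw [mem_ball] at h3
    have h4 := mesh_anti hk
    have h5 := dist_triangle (⟨B.o.re + q'.2.1 * mesh q'.1, B.o.im + q'.2.2 * mesh q'.1⟩ : ℂ) p b
    linarith
  obtain ⟨Γ, hΓc, hΓp, hwΓ, hIΓ, hΓM, hΓ⟩ := Hr B.o m f (past A n ω s) w
    (fun l hl => ⟨(hall l hl).1, (hall l hl).2.1, past_disj hs (hall l hl).2⟩)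
    (fun l hl => (hf l hl).1) hKD hwm hwB hout
  have hsub : ∀ z ∈ Γ ∪ closedBall w ρ, ∃ y ∈ Γ, closedBall z ρ ⊆ closedBall y r := by
    rintro z (hz | hz)
    · exact ⟨z, hz, closedBall_subset_closedBall (by linarith)⟩
    · refine ⟨w, hwΓ, closedBall_subset_closedBall' ?_⟩
      rw [mem_closedBall] at hz
      linarith
  refine ⟨Γ ∪ closedBall w ρ, hΓc.union (isCompact_closedBall _ _),
    hΓp.union w hwΓ (mem_closedBall_self hρ0.le) (convex_closedBall w ρ).isPreconnected,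
    Or.inl hIΓ, ?_, ?_, i, hsi, hit, ?_⟩
  · apply union_subset
    · exact hΓM.trans (closedBall_subset_closedBall (by linarith))
    · apply closedBall_subset_closedBall'
      have := hΓM hwΓ
      rw [mem_closedBall] at this
      linarith
  · intro z hz
    obtain ⟨y, hy, hzy⟩ := hsub z hz
    obtain ⟨h1, h2, h3⟩ := hΓ y hy
    exact ⟨hzy.trans h1, h3.mono_left hzy, h2.mono_left hzy⟩
  · right
    rw [mem_closedBall, dist_comm]
    exact hww.trans hn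

end

end Pool.Agent.H11.M7
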