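import Mathlib
import Pool.Agent.H11.M7.Gamma

set_option autoImplicit false
open Set Filter Topology Metric

/-! # Capacity gained by macroscopic pieces of the path (module M7, 5.5) -/

namespace Pool.Agent.H11.M7

open Pool.Agent.H75.Perc Pool.Agent.H75.TwoArm Pool.Agent.H75.Four Pool.Agent.H69.Q1
open Pool.Agent.H81.Q1 (pt DDomain Approx IsJordanDomain IsArcs)
open Pool.Agent.Q1.M3
open Pool.Agent.H82.Q1 (IsChart HH cHH)
open Pool.Agent.H82.Q1.M7 (Gain medc)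
open Pool.Agent.H96.M7

section

variable {D : Set ℂ} {a b : ℂ} {A₁ A₂ : Set ℂ}

/-- The event that a macroscopic piece of the path before the barrier contains no gain. -/
def NoGain {A : Approx D a b A₁ A₂} {r0 : ℝ} (B : Base A r0) (c : ℝ) (kS n : ℕ)
    (ω : Finset (ℤ × ℤ)) : Prop :=
  ∃ s t, s ≤ t ∧ t ≤ (X0 A n).len ω ∧
      c ≤ dist (pt (A.δ n) (vx ((X0 A n).cor ω s))) (pt (A.δ n) (vx ((X0 A n).cor ω t))) ∧
      (∀ i < t, plab ((X0 A n).cor ω i) ∉ star (B.N n)) ∧ ¬ Gain B kS n ω s t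

/-- **[GAIN]** at arbitrarily large levels. -/
def StGain' {A : Approx D a b A₁ A₂} {r0 : ℝ} (B : Base A r0) : Prop :=
  ∀ c > 0, ∀ θ > 0, ∀ k₀ : ℕ, ∃ kS, k₀ ≤ kS ∧ ∀ᶠ n in atTop,
    Pr (X0 A n).E (NoGain B c kS n) ≤ θ

variable {φ : ℂ → ℂ}

/-- **Gap theorem.** Outside an event of probability `≤ η`, a piece of the path of size `≥ c` which
stays at distance `≥ 2 ε` from `b` costs at least `θ` of capacity time, for every chain of
domains which are visible from `φ (iY)` and exclude the visited vertices. -/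
theorem exists_gap (h : IsChart D a b φ) (A : Approx D a b A₁ A₂)
    (hG : ∀ r : ℝ, 0 < r → ∃ r0 ≤ r, ∃ B : Base A r0, StGain' B) {ε c η T : ℝ} (hε : 0 < ε) (hc : 0 < c)
    (hη : 0 < η) (hT : 0 ≤ T) :
    ∃ Y : ℝ, 0 < Y ∧ (∀ z ∈ HH, Y ≤ ‖z‖ → dist (φ z) b < ε) ∧ ∃ κ > 0, ∃ e > 0, ∃ θ > 0,
      ∀ᶠ n in atTop, ∃ Bad : Finset (ℤ × ℤ) → Prop, Pr (X0 A n).E Bad ≤ η ∧
      ∀ ω : Finset (ℤ × ℤ), ¬ Bad ω →
      ∀ (J : ℕ) (t V e₁ f₁ : ℕ → ℝ) (G : ℕ → Set ℂ) (Z : ℕ → ℂ → ℂ) (Tx : ℕ → ℕ),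
      DChain J t V e₁ f₁ G Z → t 0 = 0 → Y / 2 ≤ (Z 0 (φ (Y * Complex.I))).im →
      (∀ j k, j ≤ k → k ≤ J → Tx j ≤ Tx k) → 0 < Tx 0 → Tx J ≤ (X0 A n).len ω →
      (∀ j ≤ J, ∀ u ≤ Tx j, pt (A.δ n) (vx ((X0 A n).cor ω u)) ∉ G j) →
      (∀ j ≤ J, (∀ u ≤ Tx j, 2 * ε ≤ dist (pt (A.δ n) (vx ((X0 A n).cor ω u))) b) →
        ∀ Q : Set ℂ, IsPreconnected Q → φ (Y * Complex.I) ∈ Q →
        (∀ z ∈ Q, ball z e ⊆ D ∧ Disjoint (ball z e) (closedBall b κ) ∧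
          ∀ u ≤ Tx j, e ≤ dist (pt (A.δ n) (vx ((X0 A n).cor ω u))) z) → Q ⊆ G j) →
      ∀ j k, j ≤ k → k ≤ J → t j ≤ T →
        (∀ u ≤ Tx k, 2 * ε ≤ dist (pt (A.δ n) (vx ((X0 A n).cor ω u))) b) →
        c ≤ dist (pt (A.δ n) (vx ((X0 A n).cor ω (Tx j))))
          (pt (A.δ n) (vx ((X0 A n).cor ω (Tx k)))) → θ ≤ t k - t j := by
  obtain ⟨Y₀, hY₀, HY⟩ := exists_far h hε
  set Y : ℝ := max Y₀ (√(96 * T) + 1) with hYd
  have hY : 0 < Y := hY₀.trans_le (le_max_left _ _)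
  have hYT : 96 * T < Y ^ 2 := by
    have h1 : √(96 * T) + 1 ≤ Y := le_max_right _ _
    have h2 : √(96 * T) < Y := by linarith
    have h3 := Real.sqrt_nonneg (96 * T)
    rw [← Real.sq_sqrt (show 0 ≤ 96 * T by positivity)]
    gcongr
  obtain ⟨κ, hκ, M, k₀, H⟩ := exists_gamma (A₁ := A₁) (A₂ := A₂) h hε hY (HY Y (le_max_left _ _))
  obtain ⟨r0, hr0, B, hB⟩ := hG (min κ ε) (by positivity)
  have hr0κ : r0 ≤ κ := hr0.trans (min_le_left _ _)
  have hr0ε : r0 ≤ ε := hr0.trans (min_le_right _ _)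
  obtain ⟨kS, hkS, hP⟩ := hB c hc η hη k₀
  obtain ⟨r, hr, Hr⟩ := H kS hkS
  obtain ⟨θ, hθ, Hθ⟩ := gain M (half_pos hr) (half_pos hY)
  have hYb : ∀ z ∈ HH, Y ≤ ‖z‖ → dist (φ z) b < ε := by
    intro z hz hzY
    by_contra hcon
    push Not at hcon
    obtain ⟨z', hz', he⟩ := HY Y (le_max_left _ _) (φ z) (by rw [← h.image]; exact ⟨z, hz, rfl⟩) hcon
    have h1 := h.inj (HH_sub hz'.1) (HH_sub hz) he
    have h2 := hz'.2
    rw [h1] at h2
    linarith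
  refine ⟨Y, hY, hYb, κ, hκ, r / 2, half_pos hr, θ, hθ, ?_⟩
  have hδ : ∀ᶠ n in atTop, A.δ n ≤ min r ε := A.lim.eventually_le_const (by positivity)
  filter_upwards [hP, hδ, B.sub] with n hPn hδn hsub
  have hδr : A.δ n ≤ r := hδn.trans (min_le_left _ _)
  have hδε : A.δ n ≤ ε := hδn.trans (min_le_right _ _)
  refine ⟨NoGain B c kS n, hPn, ?_⟩
  intro ω hω J t V e₁ f₁ G Z Tx hD ht0 hZ hTx hTx0 hTxJ hout hvis j k hjk hkJ htj hfar hdist
  have hpos : 0 < Tx j := hTx0.trans_le (hTx 0 j (Nat.zero_le _) (hjk.trans hkJ))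
  have hgain : Gain B kS n ω (Tx j) (Tx k) := by
    by_contra hcon
    refine hω ⟨Tx j, Tx k, hTx j k hjk hkJ, (hTx k J hkJ le_rfl).trans hTxJ, hdist, ?_, hcon⟩
    intro i hi hmem
    obtain ⟨v, hv, hv2⟩ := mem_star.1 hmem
    have h1 := hsub v hv
    rw [mem_ball] at h1
    have h2 := dist_of_star1 (A.pos n) hv2 (plab_star1 ((X0 A n).cor ω i))
    have h3 := hfar i hi.le
    have h4 := dist_triangle (pt (A.δ n) (vx ((X0 A n).cor ω i))) (pt (A.δ n) v) b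
    rw [dist_comm] at h2
    linarith
  obtain ⟨Γ, -, hΓp, hIΓ, hΓM, hΓ, i, -, hik, hiΓ⟩ := Hr A r0 B hr0κ n hδr ω (Tx j) (Tx k) hpos
    hfar hgain
  refine Hθ hD hjk hkJ Γ hΓp hΓM ?_ _ hIΓ hZ ?_ _ hiΓ (hout k hkJ i hik.le)
  · intro z hz
    have h1 : Γ ∪ ball z (r / 2) ⊆ G j := by
      apply hvis j (hjk.trans hkJ) (fun u hu => hfar u (hu.trans (hTx j k hjk hkJ)))
      · exact hΓp.union z hz (mem_ball_self (half_pos hr)) (convex_ball z _).isPreconnected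
      · exact Or.inl hIΓ
      · have key : ∀ y ∈ Γ ∪ ball z (r / 2), ∃ z' ∈ Γ, dist y z' < r / 2 := by
          rintro y (hy | hy)
          · exact ⟨y, hy, by rw [dist_self]; positivity⟩
          · exact ⟨z, hz, hy⟩
        intro y hy
        obtain ⟨z', hz', hyz⟩ := key y hy
        obtain ⟨g1, g2, g3⟩ := hΓ z' hz'
        have hb : ball y (r / 2) ⊆ closedBall z' r := by
          intro x hx
          rw [mem_ball] at hx
          rw [mem_closedBall]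
          have := dist_triangle x y z'
          linarith
        refine ⟨hb.trans g1, g2.mono_left hb, ?_⟩
        intro u hu
        by_contra hcon
        push Not at hcon
        apply Set.disjoint_left.1 g3 _ ⟨u, hu, rfl⟩
        rw [mem_closedBall]
        have := dist_triangle (pt (A.δ n) (vx ((X0 A n).cor ω u))) y z'
        linarith
    exact subset_union_right.trans h1
  · rw [ht0]
    have : (Y / 2) ^ 2 = Y ^ 2 / 4 := by ring
    rw [this]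
    linarith

end

end Pool.Agent.H11.M7
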