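import Mathlib
import Pool.Agent.H11.M7.Gap
import Pool.Agent.H28.Q1.Ret

set_option autoImplicit false
open Set Filter Topology Metric

/-! # Modulus of continuity in capacity time (module M7, 5.5) -/

namespace Pool.Agent.H11.M7

open Pool.Agent.H75.Perc Pool.Agent.H75.TwoArm Pool.Agent.H75.Four Pool.Agent.H69.Q1
open Pool.Agent.H81.Q1 (pt DDomain Approx IsJordanDomain IsArcs)
open Pool.Agent.Q1.M3
open Pool.Agent.H82.Q1 (IsChart HH cHH)
open Pool.Agent.H96.M7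

section

variable {D : Set ℂ} {a b : ℂ} {A₁ A₂ : Set ℂ}

/-- The point of the path at time `u`. -/
noncomputable def gp (A : Approx D a b A₁ A₂) (n : ℕ) (ω : Finset (ℤ × ℤ)) (u : ℕ) : ℂ :=
  pt (A.δ n) (vx ((X0 A n).cor ω u))

/-- **[RET]** The path stays near `b`. -/
def StRetB (A : Approx D a b A₁ A₂) : Prop :=
  ∀ ε > 0, ∀ θ > 0, ∃ r > 0, ∀ᶠ n in atTop, Pr (X0 A n).E (fun ω => ∃ t1 t2, t1 ≤ t2 ∧
      t2 ≤ (X0 A n).len ω ∧ dist (gp A n ω t1) b ≤ r ∧ ε ≤ dist (gp A n ω t2) b) ≤ θ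

/-- The data of one configuration for the modulus of continuity. -/
structure MData (A : Approx D a b A₁ A₂) (φ : ℂ → ℂ) (Y κ e ε s : ℝ) (n : ℕ) (ω : Finset (ℤ × ℤ))
    (J : ℕ) (t : ℕ → ℝ) (G : ℕ → Set ℂ) (Z : ℕ → ℂ → ℂ) (Tx : ℕ → ℕ) : Prop where
  chain : ∃ V e₁ f₁ : ℕ → ℝ, DChain J t V e₁ f₁ G Z
  t0 : t 0 = 0
  init : Y / 2 ≤ (Z 0 (φ (Y * Complex.I))).im
  mono : ∀ j k, j ≤ k → k ≤ J → Tx j ≤ Tx k
  pos : 0 < Tx 0
  len : Tx J ≤ (X0 A n).len ω
  out : ∀ j ≤ J, ∀ u ≤ Tx j, gp A n ω u ∉ G j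
  vis : ∀ j ≤ J, (∀ u ≤ Tx j, ε ≤ dist (gp A n ω u) b) →
        ∀ Q : Set ℂ, IsPreconnected Q → φ (Y * Complex.I) ∈ Q →
        (∀ z ∈ Q, ball z e ⊆ D ∧ Disjoint (ball z e) (closedBall b κ) ∧
          ∀ u ≤ Tx j, e ≤ dist (gp A n ω u) z) → Q ⊆ G j
  step : ∀ j < J, ∀ u, Tx j ≤ u → u ≤ Tx (j + 1) → dist (gp A n ω u) (gp A n ω (Tx j)) ≤ s

/-- **[RET]** holds (helper28). -/
theorem stRetB (hDo : IsOpen D) (hDc : IsConnected D) (hDb : Bornology.IsBounded D)
    (hA : IsArcs D a b A₁ A₂) (A : Approx D a b A₁ A₂) (hab : a ≠ b) : StRetB A := by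
  intro ε hε θ hθ
  obtain ⟨r, hr, h⟩ := Pool.Agent.H28.Q1.ret_b hDo hDc hDb hA A hab hε hθ
  refine ⟨r, hr, ?_⟩
  filter_upwards [h] with n hn
  unfold gp X0
  rw [Pool.Agent.H81.Q1.toDEnv_E]
  exact hn

variable {φ : ℂ → ℂ}

/-- **Modulus of continuity in capacity time.** -/
theorem modulus (h : IsChart D a b φ) (A : Approx D a b A₁ A₂)
    (hG : ∀ r : ℝ, 0 < r → ∃ r0 ≤ r, ∃ B : Base A r0, StGain' B) (hR : StRetB A) {r η T : ℝ}
    (hr : 0 < r) (hη : 0 < η) (hT : 0 ≤ T) :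
    ∃ Y : ℝ, 0 < Y ∧ ∃ κ > 0, ∃ e > 0, ∃ ε > 0, (∀ z ∈ HH, Y ≤ ‖z‖ → dist (φ z) b < ε / 2) ∧
      ∃ θ > 0, ∀ᶠ n in atTop, ∃ Bad : Finset (ℤ × ℤ) → Prop, Pr (X0 A n).E Bad ≤ η ∧
      ∀ ω : Finset (ℤ × ℤ), ¬ Bad ω →
      ∀ (J : ℕ) (t : ℕ → ℝ) (G : ℕ → Set ℂ) (Z : ℕ → ℂ → ℂ) (Tx : ℕ → ℕ),
      MData A φ Y κ e ε (r / 8) n ω J t G Z Tx →
      ∀ j k, j ≤ k → k ≤ J → t j ≤ T → t k - t j < θ →
        dist (gp A n ω (Tx j)) (gp A n ω (Tx k)) ≤ r := by
  obtain ⟨r', hr', hret⟩ := hR (r / 4) (by positivity) (η / 2) (by positivity)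
  set ρ := min r' (r / 8) with hρ
  have hρ0 : 0 < ρ := by positivity
  have hρ1 : ρ ≤ r' := min_le_left _ _
  have hρ2 : ρ ≤ r / 8 := min_le_right _ _
  obtain ⟨Y, hY, hYb, κ, hκ, e, he, θ, hθ, H⟩ := exists_gap h A hG (ε := ρ / 2) (c := r / 2)
    (η := η / 2) (T := T) (by positivity) (by positivity) (by positivity) hT
  refine ⟨Y, hY, κ, hκ, e, he, ρ, hρ0, hYb, θ, hθ, ?_⟩
  filter_upwards [hret, H] with n hn1 hn2
  obtain ⟨Bad, hBad, hn2⟩ := hn2
  refine ⟨fun ω => (∃ t1 t2, t1 ≤ t2 ∧ t2 ≤ (X0 A n).len ω ∧ dist (gp A n ω t1) b ≤ r' ∧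
      r / 4 ≤ dist (gp A n ω t2) b) ∨ Bad ω, ?_, ?_⟩
  · refine (Pr_or_le _ _ _).trans ?_
    linarith
  intro ω hω J t G Z Tx hM j k hjk hkJ htj hθt
  rw [not_or] at hω
  obtain ⟨hω1, hω2⟩ := hω
  obtain ⟨V, e₁, f₁, hD⟩ := hM.chain
  have gap := hn2 ω hω2 J t V e₁ f₁ G Z Tx hD hM.t0 hM.init hM.mono hM.pos hM.len hM.out
    (fun j hj hu => hM.vis j hj fun u hu' => by
      have := hu u hu'
      change ρ ≤ dist (gp A n ω u) b
      change 2 * (ρ / 2) ≤ dist (gp A n ω u) b at this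
      linarith)
  by_contra hcon
  push Not at hcon
  have hlen : ∀ i ≤ J, Tx i ≤ (X0 A n).len ω := fun i hi => (hM.mono i J hi le_rfl).trans hM.len
  by_cases hall : ∀ u ≤ Tx k, ρ < dist (gp A n ω u) b
  · have h1 := gap j k hjk hkJ htj (fun u hu => by
      have := hall u hu
      change 2 * (ρ / 2) ≤ dist (gp A n ω u) b
      linarith) (by
      change r / 2 ≤ dist (gp A n ω (Tx j)) (gp A n ω (Tx k))
      linarith)
    linarith
  · push Not at hall
    classical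
    set u0 := Nat.find hall with hu0
    obtain ⟨hu0k, hu0b⟩ := Nat.find_spec hall
    rw [← hu0] at hu0k hu0b
    have hmin : ∀ u < u0, ρ < dist (gp A n ω u) b := by
      intro u hu
      have := Nat.find_min hall hu
      rw [not_and, not_le] at this
      exact this (hu.le.trans hu0k)
    have hnear : ∀ i, u0 ≤ i → i ≤ (X0 A n).len ω → dist (gp A n ω i) b < r / 4 := by
      intro i h1 h2
      by_contra hc
      push Not at hc
      exact hω1 ⟨u0, i, h1, h2, hu0b.trans hρ1, hc⟩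
    have hk4 := hnear (Tx k) hu0k (hlen k hkJ)
    by_cases hj : u0 ≤ Tx j
    · have hj4 := hnear (Tx j) hj (hlen j (hjk.trans hkJ))
      have := dist_triangle_right (gp A n ω (Tx j)) (gp A n ω (Tx k)) b
      linarith
    · push Not at hj
      -- last index before `u0`
      have hex : ∃ i, j ≤ i ∧ i < k ∧ Tx i < u0 ∧ u0 ≤ Tx (i + 1) := by
        have hP : ∃ i, j < i ∧ u0 ≤ Tx i := by
          refine ⟨k, ?_, hu0k⟩
          rcases hjk.lt_or_eq with h1 | h1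
          · exact h1
          · subst h1; omega
        obtain ⟨h1, h2⟩ := Nat.find_spec hP
        refine ⟨Nat.find hP - 1, by omega, ?_, ?_, ?_⟩
        · have : Nat.find hP ≤ k := Nat.find_min' hP ⟨by
            rcases hjk.lt_or_eq with h1 | h1
            · exact h1
            · subst h1; omega, hu0k⟩
          omega
        · rcases Nat.lt_or_ge j (Nat.find hP - 1) with h3 | h3
          · have := Nat.find_min hP (m := Nat.find hP - 1) (by omega)
            rw [not_and, not_le] at this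
            exact this h3
          · have : Nat.find hP - 1 = j := by omega
            rw [this]
            exact hj
        · rw [Nat.sub_add_cancel (by omega)]
          exact h2
      obtain ⟨i, hji, hik, hi1, hi2⟩ := hex
      have hiJ : i ≤ J := by omega
      have hs := hM.step i (by omega) u0 hi1.le hi2
      have hib : dist (gp A n ω (Tx i)) b ≤ ρ + r / 8 := by
        have := dist_triangle (gp A n ω (Tx i)) (gp A n ω u0) b
        rw [dist_comm (gp A n ω (Tx i)) (gp A n ω u0)] at this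
        linarith
      have hdik : dist (gp A n ω (Tx i)) (gp A n ω (Tx k)) < r / 2 := by
        have := dist_triangle_right (gp A n ω (Tx i)) (gp A n ω (Tx k)) b
        linarith
      have hji2 : r / 2 ≤ dist (gp A n ω (Tx j)) (gp A n ω (Tx i)) := by
        have := dist_triangle (gp A n ω (Tx j)) (gp A n ω (Tx i)) (gp A n ω (Tx k))
        linarith
      have h1 := gap j i hji hiJ htj (fun u hu => by
        have := hmin u (by omega)
        change 2 * (ρ / 2) ≤ dist (gp A n ω u) b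
        linarith) hji2
      have h2 := hD.t_mono hik.le hkJ
      linarith

end

end Pool.Agent.H11.M7
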