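import Mathlib
import Pool.Agent.H11.M7.Modulus
import Pool.Agent.H57.Q1.M2

set_option autoImplicit false
open Set Filter Topology Metric

/-! # Number of macroscopic pieces (module M7, coarse chain) -/

namespace Pool.Agent.H11.M7

open Pool.Agent.H75.Perc Pool.Agent.H75.TwoArm Pool.Agent.H75.Four Pool.Agent.H69.Q1
open Pool.Agent.H81.Q1 (pt DDomain Approx IsJordanDomain IsArcs)
open Pool.Agent.Q1.M3
open Pool.Agent.H82.Q1.M7 (Gain medc StGain)
open Pool.Agent.H57.Q1 (Seq pieces_bound_Pr)

section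

variable {D : Set ℂ} {a b : ℂ} {A₁ A₂ : Set ℂ}

/-- The interface statement gives the statement used in the gap theorem. -/
theorem stGain'_of {A : Approx D a b A₁ A₂} {r0 : ℝ} {B : Base A r0} (h : StGain B) :
    StGain' B := by
  intro c hc θ hθ k₀
  obtain ⟨kS, h1, -, h2⟩ := h c hc θ hθ k₀
  exact ⟨kS, h1, h2⟩

open Classical in
lemma seq_of_card {Q : ℕ → ℕ → Prop} {T : ℕ → ℕ} {K m : ℕ} (hT : ∀ k < K, T k ≤ T (k + 1))
    (hQ : ∀ u, ¬ Q u u)
    (hm : m ≤ ((Finset.range K).filter fun k => Q (T k) (T (k + 1))).card) : Seq Q m (T K) := by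
  induction K generalizing m with
  | zero =>
    simp only [Finset.range_zero, Finset.filter_empty, Finset.card_empty, Nat.le_zero] at hm
    subst hm
    trivial
  | succ K ih =>
    have hT' : ∀ k < K, T k ≤ T (k + 1) := fun k hk => hT k (hk.trans (Nat.lt_succ_self K))
    rw [Finset.range_add_one, Finset.filter_insert] at hm
    by_cases hK : Q (T K) (T (K + 1))
    · rw [if_pos hK, Finset.card_insert_of_notMem (by simp)] at hm
      cases m with
      | zero => trivial
      | succ m =>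
        refine ⟨T K, T (K + 1), ?_, le_rfl, hK, ih hT' (by omega)⟩
        refine lt_of_le_of_ne (hT K (Nat.lt_succ_self K)) fun h => ?_
        rw [← h] at hK
        exact hQ _ hK
    · rw [if_neg hK] at hm
      exact Seq.mono_N (hT K (Nat.lt_succ_self K)) (ih hT' hm)

open Classical in
/-- **Number of macroscopic pieces.** For a nondecreasing sequence of times before the end, the
number of pieces with endpoints at distance `≥ δ` is less than `N`, outside an event of
probability `≤ θ`. -/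
theorem count3 (hD : Bornology.IsBounded D) (hne : D.Nonempty) (hA : IsArcs D a b A₁ A₂)
    (A : Approx D a b A₁ A₂) {δ θ : ℝ} (hδ : 0 < δ) (hθ : 0 < θ) :
    ∃ N : ℕ, ∀ᶠ n in atTop, Pr (X0 A n).E (fun ω => ∃ (K : ℕ) (T : ℕ → ℕ),
      (∀ k < K, T k ≤ T (k + 1)) ∧ T K ≤ (X0 A n).len ω ∧
      N ≤ ((Finset.range K).filter fun k =>
        δ ≤ dist (gp A n ω (T k)) (gp A n ω (T (k + 1)))).card) ≤ θ := by
  obtain ⟨m, hm⟩ := pieces_bound_Pr hD hne hA A hδ hθ
  refine ⟨m, hm.mono fun n hn => ?_⟩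
  have h1 : (X0 A n).E = EL (A.X n) := by
    unfold X0
    rw [Pool.Agent.H81.Q1.toDEnv_E]
  rw [h1]
  refine le_trans (Pr_mono ?_) hn
  rintro ω - ⟨K, T, hT, hK, hc⟩
  have h2 := seq_of_card (Q := fun u v => δ ≤ dist (gp A n ω u) (gp A n ω v)) hT (by
    intro u hu
    rw [dist_self] at hu
    linarith) hc
  refine Seq.mono_N hK (Seq.imp ?_ h2)
  intro u v _ _ huv
  rw [dist_comm]
  exact huv

end

end Pool.Agent.H11.M7
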