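import Mathlib
import Pool.Agent.H82.Q1.M7.Data
import Pool.Agent.H11.M7.Count

set_option autoImplicit false
open Set Filter Topology Metric

/-! # J24, half 2: the modulus of continuity for the chains `CData` -/

namespace Pool.Agent.H11.M7

open Pool.Agent.H75.Perc Pool.Agent.H75.TwoArm Pool.Agent.H75.Four Pool.Agent.H69.Q1
open Pool.Agent.H81.Q1 (pt DDomain Approx IsJordanDomain IsArcs)
open Pool.Agent.Q1.M3
open Pool.Agent.H82.Q1 (IsChart HH cHH)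
open Pool.Agent.H82.Q1.M7 (CData)
open Pool.Agent.H96.M7

section

variable {D : Set ℂ} {a b : ℂ} {A₁ A₂ : Set ℂ} {A : Approx D a b A₁ A₂} {φ : ℂ → ℂ}
  {n J : ℕ} {ω : Finset (ℤ × ℤ)} {t V μ : ℕ → ℝ} {G : ℕ → Set ℂ} {Z : ℕ → ℂ → ℂ} {Tx : ℕ → ℕ}

lemma CData.mono' {ε : ℝ} (h : CData A φ ε n ω J t V μ G Z Tx) {j k : ℕ} (hjk : j ≤ k)
    (hk : k ≤ J) : Tx j ≤ Tx k := by
  induction k, hjk using Nat.le_induction with
  | base => exact le_rfl
  | succ k _ ih => exact (ih (by omega)).trans (h.mono k (by omega)).le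

lemma I_mem_HH {y : ℝ} (hy : 0 < y) : (y * Complex.I : ℂ) ∈ HH := by
  change (0 : ℝ) < (y * Complex.I : ℂ).im
  simpa using hy

lemma norm_yI {y : ℝ} (hy : 0 ≤ y) : ‖(y * Complex.I : ℂ)‖ = y := by
  rw [norm_mul, Complex.norm_I, mul_one, Complex.norm_real, Real.norm_of_nonneg hy]

/-- `CData` gives the data for the modulus of continuity. -/
theorem mdata_of_cdata {ε' Y κ e ε s : ℝ} (hY : 0 < Y)
    (hYb : ∀ z ∈ HH, Y ≤ ‖z‖ → dist (φ z) b < ε / 2) (h0 : 0 < ε') (h1 : ε' ≤ Y / 2)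
    (h2 : Y ≤ ε'⁻¹) (h3 : ε' ≤ e) (h4 : ε' ≤ κ) (h5 : ε' ≤ ε / 2) (h6 : ε' ≤ s)
    (h : CData A φ ε' n ω J t V μ G Z Tx) : MData A φ Y κ e ε s n ω J t G Z Tx where
  chain := ⟨_, _, _, h.chain.dchain⟩
  t0 := h.t0
  init := by
    obtain ⟨-, k1⟩ := h.init (Y * Complex.I) (by simp; linarith) (by rwa [norm_yI hY.le])
    have k2 := (Complex.abs_im_le_norm (Z 0 (φ (Y * Complex.I)) - Y * Complex.I)).trans k1
    rw [Complex.sub_im, abs_le] at k2
    have k3 : (Y * Complex.I : ℂ).im = Y := by simp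
    rw [k3] at k2
    linarith [k2.1]
  mono := fun j k hjk hk => CData.mono' h hjk hk
  pos := h.pos
  len := h.len
  out := h.out
  vis := by
    intro j hj hb Q hQ hYQ hQe
    refine h.vis j hj Y hY h2 Q hQ hYQ ?_ ?_
    · intro z hz
      obtain ⟨g1, g2, -⟩ := hQe z hz
      refine ⟨(ball_subset_ball h3).trans g1, ?_⟩
      have he : 0 < e := h0.trans_le h3
      have g3 := Set.disjoint_left.1 g2 (mem_ball_self he)
      rw [mem_closedBall, not_le] at g3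
      linarith
    · intro u hu
      refine ⟨fun z hz => h3.trans ((hQe z hz).2.2 u hu), ?_⟩
      intro s' hs'
      have hs0 : 0 < s' := hY.trans_le hs'
      have g1 := hYb _ (I_mem_HH hs0) (by rwa [norm_yI hs0.le])
      have g2 := hb u hu
      have g3 := dist_triangle (gp A n ω u) (φ (s' * Complex.I)) b
      linarith
  step := fun j hj u hu1 hu2 => (h.step j hj u hu1 hu2).trans h6

/-- **Modulus of continuity in capacity time**, for the chains `CData`. -/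
theorem modulus_c (h : IsChart D a b φ) (A : Approx D a b A₁ A₂)
    (hG : ∀ r : ℝ, 0 < r → ∃ r0 ≤ r, ∃ B : Base A r0, StGain' B) (hR : StRetB A) {r η T : ℝ}
    (hr : 0 < r) (hη : 0 < η) (hT : 0 ≤ T) :
    ∃ θ > 0, ∃ ε > 0, ∀ᶠ n in atTop, ∃ Bad : Finset (ℤ × ℤ) → Prop, Pr (X0 A n).E Bad ≤ η ∧
      ∀ ω : Finset (ℤ × ℤ), ¬ Bad ω → ∀ ε' : ℝ, 0 < ε' → ε' ≤ ε →
      ∀ (J : ℕ) (t V μ : ℕ → ℝ) (G : ℕ → Set ℂ) (Z : ℕ → ℂ → ℂ) (Tx : ℕ → ℕ),
      CData A φ ε' n ω J t V μ G Z Tx →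
      ∀ j k, j ≤ k → k ≤ J → t j ≤ T → t k - t j < θ →
        dist (gp A n ω (Tx j)) (gp A n ω (Tx k)) ≤ r := by
  obtain ⟨Y, hY, κ, hκ, e, he, ε, hε, hYb, θ, hθ, H⟩ := modulus h A hG hR hr hη hT
  refine ⟨θ, hθ, min (min (Y / 2) Y⁻¹) (min (min e κ) (min (ε / 2) (r / 8))), by positivity, ?_⟩
  filter_upwards [H] with n hn
  obtain ⟨Bad, hBad, hn⟩ := hn
  refine ⟨Bad, hBad, fun ω hω ε' h0 hε' J t V μ G Z Tx hC j k hjk hkJ htj hθt => ?_⟩
  have k1 := hε'.trans (min_le_left _ _)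
  have k2 := hε'.trans (min_le_right _ _)
  have k3 := k1.trans (min_le_left _ _)
  have k4 := k1.trans (min_le_right _ _)
  have k5 := k2.trans (min_le_left _ _)
  have k6 := k2.trans (min_le_right _ _)
  refine hn ω hω J t G Z Tx (mdata_of_cdata (ε' := ε') hY hYb h0 k3 ?_ (k5.trans (min_le_left _ _))
    (k5.trans (min_le_right _ _)) (k6.trans (min_le_left _ _)) (k6.trans (min_le_right _ _)) hC)
    j k hjk hkJ htj hθt
  have := inv_anti₀ h0 k4
  rwa [inv_inv] at this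

end

end Pool.Agent.H11.M7
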