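import Mathlib
import Pool.Agent.H82.Q1.M7.Data
import Pool.Agent.H11.M7.Count
import Pool.Agent.Q1.M3.Conc
import Pool.Agent.H37.Levy.Coin

set_option autoImplicit false
open Set Filter Topology Metric MeasureTheory

/-! # J24, half 2: the path as a polygonal line, and its law -/

namespace Pool.Agent.H11.M7

open Pool.Agent.H75.Perc Pool.Agent.H75.TwoArm Pool.Agent.H75.Four Pool.Agent.H69.Q1
open Pool.Agent.H81.Q1 (pt DDomain Approx IsJordanDomain IsArcs Curve polyline)
open Pool.Agent.Q1.M3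
open Pool.Agent.H4.Q1.M7 (Om PO real_PO)

section

variable {D : Set ℂ} {a b : ℂ} {A₁ A₂ : Set ℂ} (A : Approx D a b A₁ A₂) (n : ℕ)

/-- The vertices of the exploration path. -/
noncomputable def pp (ω : Finset (ℤ × ℤ)) (i : ℕ) : ℂ :=
  lvert (A.δ n) (ω ∪ (X0 A n).W) (X0 A n).α i

lemma X0_E : (X0 A n).E = EL (A.X n) := by
  unfold X0
  rw [Pool.Agent.H81.Q1.toDEnv_E]

/-- The exploration path is the polygonal line through `pp 0, …, pp (len + 1)`. -/
lemma gamma_eq (ω : Finset (ℤ × ℤ)) :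
    (A.X n).gamma (A.δ n) ω = Curve.mk (polyline (pp A n ω) ((X0 A n).len ω + 1)) := by
  unfold DDomain.gamma expl pp X0
  rw [← Pool.Agent.H81.Q1.toDEnv_W]
  rfl

lemma pp_eq (ω : Finset (ℤ × ℤ)) (i : ℕ) :
    pp A n ω i = lpt (A.δ n) (lab ((X0 A n).cor ω i)) := by
  unfold pp
  rw [lvert_eq]
  rfl

lemma pp_dist (ω : Finset (ℤ × ℤ)) (i : ℕ) : dist (pp A n ω i) (gp A n ω i) ≤ A.δ n := by
  rw [pp_eq]
  exact lpt_dist (A.pos n) (lab_star1 _)

lemma pp_last (ω : Finset (ℤ × ℤ)) (i : ℕ) : dist (pp A n ω (i + 1)) (gp A n ω i) ≤ A.δ n := by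
  rw [pp_eq, DEnv.cor_succ, lab_pv]
  exact lpt_dist (A.pos n) (plab_star1 _)

/-- **The law of the exploration path.** -/
theorem law_map : (A.law n : Measure Curve) =
    (PO (X0 A n).E).map (fun ω => (A.X n).gamma (A.δ n) ω.1) := by
  ext S hS
  rw [Measure.map_apply (by measurability) hS]
  rw [← ENNReal.toReal_eq_toReal_iff' (measure_ne_top _ _) (measure_ne_top _ _)]
  have h1 := law_apply (A.X n) (A.δ n) hS
  refine h1.trans ?_
  have h2 := real_PO (E := (X0 A n).E) (fun ω => (A.X n).gamma (A.δ n) ω ∈ S)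
  rw [← X0_E A n]
  exact h2.symm

/-- The law on a product with another probability space. -/
theorem law_prod {Ω : Type*} [MeasurableSpace Ω] (ν : Measure Ω) [IsProbabilityMeasure ν]
    {e : Om (X0 A n).E → C(unitInterval, ℂ)}
    (he : ∀ ω, Curve.mk ⟨e ω⟩ = (A.X n).gamma (A.δ n) ω.1) :
    (A.law n : Measure Curve) = ((PO (X0 A n).E).prod ν).map (fun p => Curve.mk ⟨e p.1⟩) := by
  have h1 : (fun p : Om (X0 A n).E × Ω => Curve.mk ⟨e p.1⟩) =
      (fun ω : Om (X0 A n).E => (A.X n).gamma (A.δ n) ω.1) ∘ Prod.fst := by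
    funext p
    exact he p.1
  rw [h1, ← Measure.map_map (by measurability) measurable_fst, Measure.map_fst_prod, measure_univ,
    one_smul, law_map]

end

end Pool.Agent.H11.M7
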