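import Mathlib
import Pool.Agent.H11.M7.CMod
import Pool.Agent.H11.M7.Law
import Pool.Agent.H28.Q1.InvD
import Pool.Agent.H96.M7.PathData

set_option autoImplicit false
open Set Filter Topology Metric
open scoped unitInterval NNReal

/-! # J24, half 2: `CData` gives `PathData` -/

namespace Pool.Agent.H11.M7

open Pool.Agent.H75.Perc Pool.Agent.H75.TwoArm Pool.Agent.H75.Four Pool.Agent.H69.Q1
open Pool.Agent.H81.Q1 (pt DDomain Approx IsJordanDomain IsArcs)
open Pool.Agent.Q1.M3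
open Pool.Agent.H82.Q1 (IsChart HH cHH)
open Pool.Agent.H82.Q1.M7 (CData)
open Pool.Agent.H96.M7 (PathData drv MChain)

section

variable {D : Set ℂ} {a b : ℂ} {A₁ A₂ : Set ℂ} {φ : ℂ → ℂ}

/-- The compact part `φ {Im z ≥ ε, |z| ≤ 1/ε}` of `D`. -/
lemma exists_room (h : IsChart D a b φ) {ε : ℝ} (hε : 0 < ε) : ∃ c > 0,
    ∀ z ∈ φ '' {z | ε ≤ z.im ∧ ‖z‖ ≤ ε⁻¹}, ball z c ⊆ D ∧ c ≤ dist z b := by
  have hS : {z : ℂ | ε ≤ z.im ∧ ‖z‖ ≤ ε⁻¹} ⊆ HH := fun z hz => lt_of_lt_of_le hε hz.1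
  have hc : IsCompact {z : ℂ | ε ≤ z.im ∧ ‖z‖ ≤ ε⁻¹} := by
    have : {z : ℂ | ε ≤ z.im ∧ ‖z‖ ≤ ε⁻¹} = closedBall 0 ε⁻¹ ∩ {z | ε ≤ z.im} := by
      ext z
      rw [mem_inter_iff, mem_closedBall_zero_iff, mem_ofPred_eq, mem_ofPred_eq]
      tauto
    rw [this]
    exact (isCompact_closedBall _ _).inter_right (isClosed_le continuous_const Complex.continuous_im)
  have hK : IsCompact (φ '' {z : ℂ | ε ≤ z.im ∧ ‖z‖ ≤ ε⁻¹}) :=
    hc.image_of_continuousOn (h.diff.continuousOn.mono hS)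
  have hKD : φ '' {z : ℂ | ε ≤ z.im ∧ ‖z‖ ≤ ε⁻¹} ⊆ D \ {b} := by
    rintro _ ⟨z, hz, rfl⟩
    refine ⟨?_, ?_⟩
    · rw [← h.image]
      exact ⟨z, hS hz, rfl⟩
    · intro he
      exact h.ne ⟨z, HH_sub (hS hz), he⟩
  have hDo : IsOpen (D \ {b}) := (chart_open h).sdiff isClosed_singleton
  obtain ⟨c, hc0, hcs⟩ := hK.exists_cthickening_subset_open hDo hKD
  refine ⟨c, hc0, fun z hz => ?_⟩
  have h1 : closedBall z c ⊆ D \ {b} := (closedBall_subset_cthickening hz c).trans hcs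
  refine ⟨ball_subset_closedBall.trans (h1.trans sdiff_subset), ?_⟩
  by_contra hcon
  push Not at hcon
  have h2 : b ∈ closedBall z c := by
    rw [mem_closedBall, dist_comm]
    exact hcon.le
  exact (h1 h2).2 rfl

variable {A : Approx D a b A₁ A₂} {n J : ℕ} {ω : Finset (ℤ × ℤ)} {t V μ : ℕ → ℝ} {G : ℕ → Set ℂ}
  {Z : ℕ → ℂ → ℂ} {Tx : ℕ → ℕ}

/-- Every visited vertex is close to a tip. -/
lemma CData.near_tip {ε' : ℝ} (h : CData A φ ε' n ω J t V μ G Z Tx) {j : ℕ} (hj : j ≤ J) {u : ℕ}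
    (hu : u ≤ Tx j) : ∃ l ≤ j, dist (gp A n ω u) (gp A n ω (Tx l)) ≤ 2 * ε' := by
  induction j with
  | zero =>
    refine ⟨0, le_rfl, ?_⟩
    have h1 := h.first u hu
    have h2 := h.first (Tx 0) le_rfl
    have := dist_triangle_right (gp A n ω u) (gp A n ω (Tx 0)) a
    linarith
  | succ j ih =>
    rcases Nat.lt_or_ge (Tx j) u with h1 | h1
    · refine ⟨j, Nat.le_succ j, ?_⟩
      have h2 := h.step j (by omega) u h1.le hu
      have h3 := dist_nonneg.trans h2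
      linarith
    · obtain ⟨l, hl, h2⟩ := ih (by omega) h1
      exact ⟨l, by omega, h2⟩

/-- The end of the path. -/
lemma gp_len (hω : ω ⊆ (X0 A n).E) :
    gp A n ω ((X0 A n).len ω) = pt (A.δ n) (A.X n).β.1 := by
  unfold gp
  rw [DEnv.cor_len _ hω]
  unfold X0
  rw [Pool.Agent.H81.Q1.toDEnv_β, vx_cor]

/-- **`CData` gives `PathData`.** -/
theorem pathData_of_cdata (h : IsChart D a b φ) (A : Approx D a b A₁ A₂) {ε : ℝ} (hε : 0 < ε) :
    ∃ ε₁ > 0, ∀ᶠ n in atTop, ∀ ω : Finset (ℤ × ℤ), ω ⊆ (X0 A n).E → ∀ ε' : ℝ, 0 < ε' → ε' ≤ ε₁ →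
      ∀ (J : ℕ) (t V μ : ℕ → ℝ) (G : ℕ → Set ℂ) (Z : ℕ → ℂ → ℂ) (Tx : ℕ → ℕ),
      CData A φ ε' n ω J t V μ G Z Tx → ∀ (T θ : ℝ) (f : C(ℝ≥0, ℝ)),
      (∀ j ≤ J, t j ≤ T → ∀ s : ℝ, 0 ≤ s → |s - t j| ≤ θ → |V j - drv f s| ≤ ε) →
      PathData D φ a b ε T θ (pp A n ω) ((X0 A n).len ω + 1) f J Tx t V μ G Z
        (fun j => gp A n ω (Tx j)) := by
  obtain ⟨c, hc, hroom⟩ := exists_room h hε
  refine ⟨min (ε / 4) c, by positivity, ?_⟩
  have e1 : ∀ᶠ n in atTop, A.δ n ≤ ε / 4 := A.lim.eventually_le_const (by positivity)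
  have e2 : ∀ᶠ n in atTop, dist (pt (A.δ n) (A.X n).β.1) b < ε / 2 :=
    (Metric.tendsto_nhds.1 A.limβ) _ (by positivity)
  filter_upwards [e1, e2, A.sub (ε / 2) (by positivity)] with n hδ hβ hsub ω hω ε' h0 hε' J t V μ G
    Z Tx hC T θ f hf
  have k1 : ε' ≤ ε / 4 := hε'.trans (min_le_left _ _)
  have k2 : ε' ≤ c := hε'.trans (min_le_right _ _)
  have k3 : ε' ≤ ε := by linarith
  have hi : ε⁻¹ ≤ ε'⁻¹ := inv_anti₀ h0 k3
  have hpd := pp_dist A n ω
  refine
    { chain := hC.chain, sub := hC.sub, t0 := hC.t0, init := ?_, mesh := ?_, mom := ?_, drive := hf,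
      tip := ?_, out := fun j hj => hC.out j hj _ le_rfl, vis := ?_, fin := ?_, npos := by omega,
      Tmono := fun j hj => (hC.mono j hj).le, Tn := by have := hC.len; omega, first := ?_,
      step := ?_, last := ?_, seg := ?_, range := ?_ }
  · intro z hz hz'
    obtain ⟨g1, g2⟩ := hC.init z (k3.trans hz) (hz'.trans hi)
    exact ⟨g1, g2.trans k3⟩
  · exact fun j hj => (hC.mesh j hj).trans k3
  · exact hC.mom.trans k3
  · intro j _
    rw [dist_comm]
    exact (hpd _).trans (by linarith)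
  · intro Q hQ hQp hQs y hy hyQ j hj h3 h4
    have hy2 : y ≤ ε⁻¹ := by
      obtain ⟨z, hz, he⟩ := hQs hyQ
      have h5 := h.inj (HH_sub (lt_of_lt_of_le hε hz.1)) (HH_sub (I_mem_HH hy)) he
      have h6 := hz.2
      rwa [h5, norm_yI hy.le] at h6
    refine hC.vis j hj y hy (hy2.trans hi) Q hQp hyQ ?_ ?_
    · intro z hz
      obtain ⟨g1, g2⟩ := hroom z (hQs hz)
      exact ⟨(ball_subset_ball k2).trans g1, k2.trans g2⟩
    · intro u hu
      obtain ⟨l, hl, h5⟩ := CData.near_tip hC hj hu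
      refine ⟨?_, ?_⟩
      · intro z hz
        have h6 := h3 l hl z hz
        have h7 := dist_triangle_left z (gp A n ω (Tx l)) (gp A n ω u)
        linarith
      · intro s hs
        have h6 := h4 l hl s hs
        have h7 := dist_triangle_left (φ (s * Complex.I)) (gp A n ω (Tx l)) (gp A n ω u)
        linarith
  · rcases hC.fin with g | g | g
    · exact Or.inl (hi.trans g)
    · exact Or.inr (Or.inl (hi.trans g))
    · exact Or.inr (Or.inr (g.trans k3))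
  · intro i hi'
    have g1 := hC.first i hi'
    have g2 := hpd i
    have := dist_triangle (pp A n ω i) (gp A n ω i) a
    linarith
  · intro j hj i h1 h2
    have g1 := hC.step j hj i h1 h2
    have g2 := hpd i
    have g3 := hpd (Tx j)
    rw [dist_comm] at g3
    have := dist_triangle4 (pp A n ω i) (gp A n ω i) (gp A n ω (Tx j)) (pp A n ω (Tx j))
    linarith
  · have g1 := pp_last A n ω ((X0 A n).len ω)
    rw [gp_len hω] at g1
    have := dist_triangle (pp A n ω ((X0 A n).len ω + 1)) (pt (A.δ n) (A.X n).β.1) b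
    linarith
  · intro i _
    have g1 := pp_last A n ω i
    have g2 := hpd i
    have := dist_triangle_right (pp A n ω i) (pp A n ω (i + 1)) (gp A n ω i)
    linarith
  · intro i _
    have g1 := hsub _ (Pool.Agent.H28.Q1.vx_cor_mem (A.X n) hω i)
    have g2 : infDist (pp A n ω i) D ≤ infDist (gp A n ω i) D + dist (pp A n ω i) (gp A n ω i) :=
      infDist_le_infDist_add_dist
    have g3 := hpd i
    change infDist (gp A n ω i) D < ε / 2 at g1
    linarith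

end

end Pool.Agent.H11.M7
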