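import Mathlib
import Pool.Agent.H11.M7.OfC
import Pool.Agent.H96.M7.Levels
import Pool.Agent.H96.M7.Sle

set_option autoImplicit false
open Set Filter Topology Metric MeasureTheory ProbabilityTheory
open scoped unitInterval NNReal ENNReal

/-! # J24, half 2: the limit theorem

From the discrete data `Qd` at every accuracy, the gain estimate and the no-return estimate: the
exploration paths converge in law and the limit is chordal SLE(6). -/

namespace Pool.Agent.H11.M7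

open Pool.Agent.H75.Perc Pool.Agent.H75.TwoArm Pool.Agent.H75.Four Pool.Agent.H69.Q1
open Pool.Agent.H81.Q1 (pt DDomain Approx IsJordanDomain IsArcs Curve polyline)
open Pool.Agent.Q1.M3
open Pool.Agent.H82.Q1 (IsChart HH cHH)
open Pool.Agent.H82.Q1.M7 (CData Qd)
open Pool.Agent.H4.Q1.M7 (Om PO real_PO)
open Pool.Agent.H96.M7 (PathData drv MChain Conf exists_diag crvLaw IsLim)
open H37.Levy (Arr eps coins exists_drive)

section

variable {D : Set ℂ} {a b : ℂ} {A₁ A₂ : Set ℂ} {A : Approx D a b A₁ A₂} {φ : ℂ → ℂ}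

/-! ### Measures -/

lemma prod_fst {E : Finset (ℤ × ℤ)} (S : Set (Om E)) :
    ((PO E).prod coins) {p | p.1 ∈ S} = PO E S := by
  have h1 : ((PO E).prod coins).map Prod.fst = PO E := by
    rw [Measure.map_fst_prod, measure_univ, one_smul]
  conv_rhs => rw [← h1]
  rw [Measure.map_apply measurable_fst (MeasurableSet.of_discrete)]
  rfl

lemma prod_fst_le {E : Finset (ℤ × ℤ)} {S : Set (Om E)} {η : ℝ} (h : (PO E).real S ≤ η) :
    ((PO E).prod coins) {p | p.1 ∈ S} ≤ ENNReal.ofReal η := by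
  rw [prod_fst, ← ofReal_measureReal]
  exact ENNReal.ofReal_le_ofReal h

lemma prod_Pr_le {E : Finset (ℤ × ℤ)} {Q : Finset (ℤ × ℤ) → Prop} {η : ℝ} (h : Pr E Q ≤ η) :
    ((PO E).prod coins) {p | Q p.1.1} ≤ ENNReal.ofReal η := by
  refine prod_fst_le (S := {ω | Q ω.1}) ?_
  rw [real_PO]
  exact h

/-! ### Choice of the levels -/

/-- The trivial array. -/
lemma arr_zero {Ω : Type*} {m0 : MeasurableSpace Ω} (P : Measure Ω) (F : Filtration ℕ m0)
    {T0 M0 δ : ℝ} (hT : 0 ≤ T0) (hM : 0 ≤ M0) (h0 : 0 ≤ δ) (h1 : δ ≤ 1) :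
    Arr (fun _ _ => (0 : ℝ)) (fun _ _ => (0 : ℝ)) F P 6 T0 M0 δ (fun _ => 0) (fun _ => 0) 0 where
  c0 := by norm_num
  T00 := hT
  M00 := hM
  δ0 := h0
  δ1 := h1
  mw := fun _ => stronglyMeasurable_const
  mt := fun _ => stronglyMeasurable_const
  w0 := fun _ => rfl
  t0 := fun _ => rfl
  bw := fun _ _ _ => by simpa using by linarith
  bt := fun _ _ _ => by linarith
  dw := fun j hj => absurd hj (Nat.not_lt_zero j)
  dt0 := fun j hj => absurd hj (Nat.not_lt_zero j)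
  dt := fun j hj => absurd hj (Nat.not_lt_zero j)
  e1 := fun j hj => absurd hj (Nat.not_lt_zero j)
  e2 := fun j hj => absurd hj (Nat.not_lt_zero j)

/-- The good configurations. -/
def Gd (A : Approx D a b A₁ A₂) (φ : ℂ → ℂ) (ε : ℝ) (n : ℕ) (w t : ℕ → Om (X0 A n).E → ℝ) (N : ℕ) :
    Set (Om (X0 A n).E) :=
  {ω | ∃ J ≤ N, ∃ (μ : ℕ → ℝ) (G : ℕ → Set ℂ) (Z : ℕ → ℂ → ℂ)
      (Tx : ℕ → ℕ), CData A φ ε n ω.1 J (fun j => t j ω) (fun j => w j ω) μ G Z Tx}

/-- **Choice of the levels.** -/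
theorem exists_levels (hQ : ∀ ε > 0, ∀ᶠ n in atTop, Qd A φ ε n) :
    ∃ (ε : ℕ → ℝ) (w t : ∀ n, ℕ → Om (X0 A n).E → ℝ)
      (F : ∀ n, Filtration ℕ (inferInstance : MeasurableSpace (Om (X0 A n).E)))
      (T0 M0 δ : ℕ → ℝ) (e1 e2 : ℕ → ℕ → ℝ) (N : ℕ → ℕ),
      (∀ n, 0 < ε n) ∧ Tendsto ε atTop (𝓝 0) ∧
      (∀ n, Arr (w n) (t n) (F n) (PO (X0 A n).E) 6 (T0 n) (M0 n) (δ n) (e1 n) (e2 n) (N n)) ∧
      (∀ n, 0 < δ n) ∧ Tendsto δ atTop (𝓝 0) ∧ Tendsto T0 atTop atTop ∧ Tendsto M0 atTop atTop ∧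
      Tendsto (fun n => eps (e1 n) (e2 n) (N n)) atTop (𝓝 0) ∧
      ∀ᶠ n in atTop, (PO (X0 A n).E).real (Gd A φ (ε n) n (w n) (t n) (N n))ᶜ ≤ ε n := by
  obtain ⟨K, hK, hKQ⟩ := exists_diag (p := fun k n => Qd A φ (1 / ((k : ℝ) + 1)) n)
    (fun k => hQ _ (by positivity))
  have hε0 : ∀ n, 0 < 1 / ((K n : ℝ) + 1) := fun n => by positivity
  have hε1 : ∀ n, 1 / ((K n : ℝ) + 1) ≤ 1 := fun n => by
    rw [div_le_one (by positivity)]
    have : (0 : ℝ) ≤ K n := Nat.cast_nonneg _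
    linarith
  have hεt : Tendsto (fun n => 1 / ((K n : ℝ) + 1)) atTop (𝓝 0) :=
    tendsto_one_div_add_atTop_nhds_zero_nat.comp hK
  have hinv : Tendsto (fun n => (1 / ((K n : ℝ) + 1))⁻¹) atTop atTop := by
    have : Tendsto (fun n => (K n : ℝ) + 1) atTop atTop :=
      tendsto_atTop_add_const_right _ _ (tendsto_natCast_atTop_atTop.comp hK)
    refine this.congr fun n => ?_
    rw [one_div, inv_inv]
  have key : ∀ n, ∃ (w t : ℕ → Om (X0 A n).E → ℝ)
      (F : Filtration ℕ (inferInstance : MeasurableSpace (Om (X0 A n).E)))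
      (T0 M0 δ : ℝ) (e1 e2 : ℕ → ℝ) (N : ℕ),
      Arr w t F (PO (X0 A n).E) 6 T0 M0 δ e1 e2 N ∧ 0 < δ ∧ δ ≤ 1 / ((K n : ℝ) + 1) ∧
      (1 / ((K n : ℝ) + 1))⁻¹ ≤ T0 ∧ (1 / ((K n : ℝ) + 1))⁻¹ ≤ M0 ∧
      eps e1 e2 N ≤ 1 / ((K n : ℝ) + 1) ∧ 0 ≤ eps e1 e2 N ∧
      (Qd A φ (1 / ((K n : ℝ) + 1)) n →
        (PO (X0 A n).E).real (Gd A φ (1 / ((K n : ℝ) + 1)) n w t N)ᶜ ≤ 1 / ((K n : ℝ) + 1)) := by
    intro n
    by_cases hq : Qd A φ (1 / ((K n : ℝ) + 1)) n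
    · obtain ⟨w, t, F, T0, M0, δ, e1, e2, N, h1, h2, h3, h4, h5, h6, h7⟩ := hq
      refine ⟨w, t, F, T0, M0, δ, e1, e2, N, h1, h2, h3, h4, h5, h6, ?_, fun _ => h7⟩
      exact Finset.sum_nonneg fun j hj =>
        add_nonneg (h1.a_nonneg (Finset.mem_range.1 hj)) (h1.b_nonneg (Finset.mem_range.1 hj))
    · refine ⟨fun _ _ => 0, fun _ _ => 0, ⊥, (1 / ((K n : ℝ) + 1))⁻¹, (1 / ((K n : ℝ) + 1))⁻¹,
        1 / ((K n : ℝ) + 1), fun _ => 0, fun _ => 0, 0,
        arr_zero _ _ (by positivity) (by positivity) (hε0 n).le (hε1 n), hε0 n, le_rfl, le_rfl,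
        le_rfl, ?_, ?_, fun h => absurd h hq⟩
      · unfold eps
        simpa using (hε0 n).le
      · unfold eps
        simp
  choose w t F T0 M0 δ e1 e2 N h1 h2 h3 h4 h5 h6 h7 h8 using key
  refine ⟨_, w, t, F, T0, M0, δ, e1, e2, N, hε0, hεt, h1, h2, ?_, ?_, ?_, ?_, ?_⟩
  · exact squeeze_zero (fun n => (h2 n).le) h3 hεt
  · exact tendsto_atTop_mono h4 hinv
  · exact tendsto_atTop_mono h5 hinv
  · exact squeeze_zero h7 h6 hεt
  · filter_upwards [hKQ] with n hn using h8 n hn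

/-! ### The limit theorem -/

lemma bounded_pp (hD : Bornology.IsBounded D) (hne : D.Nonempty) (A : Approx D a b A₁ A₂) :
    ∃ R : ℝ, ∀ n, ∀ ω : Finset (ℤ × ℤ), ω ⊆ (X0 A n).E → ∀ i, ‖pp A n ω i‖ ≤ R := by
  obtain ⟨R, hR⟩ := A.bounded hD hne
  obtain ⟨C, hC⟩ := A.lim.bddAbove_range
  refine ⟨R + C, fun n ω hω i => ?_⟩
  have h1 := hR n _ (Pool.Agent.H28.Q1.vx_cor_mem (A.X n) hω i)
  have h2 := pp_dist A n ω i
  have h3 : A.δ n ≤ C := hC ⟨n, rfl⟩
  rw [dist_eq_norm] at h2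
  have h4 := norm_add_le (pp A n ω i - gp A n ω i) (gp A n ω i)
  rw [sub_add_cancel] at h4
  change ‖gp A n ω i‖ ≤ R at h1
  linarith

variable [MeasurableSpace C(I, ℂ)] [BorelSpace C(I, ℂ)] [MeasurableSpace C(ℝ≥0, ℝ)]
  [BorelSpace C(ℝ≥0, ℝ)]

/-- **Half 2 of J24.** -/
theorem limit (hab : a ≠ b) (hA : IsArcs D a b A₁ A₂) (h : IsChart D a b φ)
    (A : Approx D a b A₁ A₂) (hQ : ∀ ε > 0, ∀ᶠ n in atTop, Qd A φ ε n)
    (hG : ∀ r : ℝ, 0 < r → ∃ r0 ≤ r, ∃ B : Base A r0, StGain' B) :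
    ∃ μ : ProbabilityMeasure (C(I, ℂ) × C(ℝ≥0, ℝ)), IsLim 6 φ a b μ ∧
      Tendsto A.law atTop (𝓝 (crvLaw μ)) := by
  classical
  -- the domain
  have hDo := chart_open h
  have hDc : IsConnected D := by
    rw [← h.image]
    refine IsConnected.image ?_ _ (h.diff.continuousOn)
    refine ⟨⟨Complex.I, by change (0 : ℝ) < Complex.I.im; simp⟩, ?_⟩
    exact (convex_halfSpace_im_gt 0).isPreconnected
  have hDb : Bornology.IsBounded D := by
    obtain ⟨M, hM⟩ := chart_bdd h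
    exact isBounded_closedBall.subset hM
  have hR : StRetB A := stRetB hDo hDc hDb hA A hab
  obtain ⟨R, hRb⟩ := bounded_pp hDb hDc.nonempty A
  -- the levels
  obtain ⟨ε, w, t, F, T0, M0, δ, e1, e2, N, hε0, hε, hArr, hδ0, hδ, hT0, hM0, he, hGd⟩ :=
    exists_levels hQ
  -- the chains
  have hch : ∀ n (ω : Om (X0 A n).E), ∃ (J : ℕ) (μ : ℕ → ℝ) (G : ℕ → Set ℂ) (Z : ℕ → ℂ → ℂ)
      (Tx : ℕ → ℕ), ω ∈ Gd A φ (ε n) n (w n) (t n) (N n) → J ≤ N n ∧
        CData A φ (ε n) n ω.1 J (fun j => t n j ω) (fun j => w n j ω) μ G Z Tx := by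
    intro n ω
    by_cases hω : ω ∈ Gd A φ (ε n) n (w n) (t n) (N n)
    · obtain ⟨J, hJ, μ, G, Z, Tx, hC⟩ := hω
      exact ⟨J, μ, G, Z, Tx, fun _ => ⟨hJ, hC⟩⟩
    · exact ⟨0, fun _ => 0, fun _ => ∅, fun _ _ => 0, fun _ => 0, fun h => absurd h hω⟩
  choose J μ G Z Tx hch using hch
  set c0 : ∀ n, Om (X0 A n).E → Conf := fun n ω =>
    ⟨pp A n ω.1, (X0 A n).len ω.1 + 1, J n ω, Tx n ω, fun j => t n j ω, fun j => w n j ω, μ n ω,
      G n ω, Z n ω, fun j => gp A n ω.1 (Tx n ω j)⟩ with hc0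
  choose e0 he0 he0P he0v using fun n ω => Conf.exists_curve (c0 n ω) (hε0 n)
  obtain ⟨f, hfm, -, tf, hW, hdr⟩ := exists_drive (P := fun n => PO (X0 A n).E) (w := w) (t := t)
    (G := F) (by norm_num : (0 : ℝ) < 6) hArr hδ0 hT0 hM0 hδ he
  have hGdE : ∀ᶠ n in atTop, ((PO (X0 A n).E).prod coins)
      {p | p.1 ∈ (Gd A φ (ε n) n (w n) (t n) (N n))ᶜ} ≤ ENNReal.ofReal (ε n) := by
    filter_upwards [hGd] with n hn using prod_fst_le hn
  have hε' : Tendsto (fun n => ENNReal.ofReal (ε n)) atTop (𝓝 0) := by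
    have := ENNReal.tendsto_ofReal hε
    rwa [ENNReal.ofReal_zero] at this
  -- the data
  have hData : ∀ κ > 0, ∀ T > 0, Tendsto (fun n => ((PO (X0 A n).E).prod coins)
      {p | ¬ (c0 n p.1).Data D φ a b κ T (ε n) (f n p)}) atTop (𝓝 0) := by
    intro κ hκ T hT
    obtain ⟨ε₁, hε₁, hP⟩ := pathData_of_cdata h A hκ
    have h1 := hdr T κ hκ ε hε
    have h2 : Tendsto (fun n => ((PO (X0 A n).E).prod coins) {p | ∃ j ≤ N n, t n j p.1 ≤ T ∧
          ∃ s : ℝ≥0, |s - t n j p.1| ≤ ε n ∧ κ ≤ |f n p s - w n j p.1|}) atTop (𝓝 0) := by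
      have := ENNReal.tendsto_ofReal h1
      rw [ENNReal.ofReal_zero] at this
      refine this.congr fun n => ?_
      rw [ofReal_measureReal]
    have h3 := hε'.add h2
    rw [add_zero] at h3
    refine tendsto_of_tendsto_of_tendsto_of_le_of_le' tendsto_const_nhds h3
      (Eventually.of_forall fun n => zero_le) ?_
    filter_upwards [hGdE, hP, hε.eventually_le_const hε₁] with n g1 g2 g3
    refine le_trans (measure_mono ?_) ((measure_union_le {p : Om (X0 A n).E × (ℕ → Bool) |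
      p.1 ∈ (Gd A φ (ε n) n (w n) (t n) (N n))ᶜ} _).trans (add_le_add g1 le_rfl))
    intro p hp
    by_contra hcon
    rw [mem_union, not_or] at hcon
    obtain ⟨k1, k2⟩ := hcon
    have k3 : p.1 ∈ Gd A φ (ε n) n (w n) (t n) (N n) := by
      by_contra k4
      exact k1 k4
    obtain ⟨k4, k5⟩ := hch n p.1 k3
    apply hp
    refine g2 p.1.1 p.1.sub (ε n) (hε0 n) g3 _ _ _ _ _ _ _ k5 T (ε n) (f n p) ?_
    intro j hj htj s hs hst
    by_contra! k6
    apply k2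
    refine ⟨j, hj.trans k4, htj, s.toNNReal, ?_, ?_⟩
    · rwa [Real.coe_toNNReal s hs]
    · rw [abs_sub_comm]
      exact k6.le
  have hPar : Tendsto (fun n => ((PO (X0 A n).E).prod coins)
      {p | ¬ (c0 n p.1).IsPar (ε n) (e0 n p.1)}) atTop (𝓝 0) := by
    refine tendsto_of_tendsto_of_tendsto_of_le_of_le tendsto_const_nhds (hData 1 one_pos 1 one_pos)
      (fun n => zero_le) (fun n => measure_mono ?_)
    intro p hp hd
    exact hp (he0P n p.1 (Conf.Data.ok hd))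
  have hlaw : ∀ m, (A.law m : Measure Curve) = ((PO (X0 A m).E).prod coins).map
      (fun p => Curve.mk ⟨e0 m p.1⟩) := by
    intro m
    refine law_prod A m coins (e := e0 m) fun ω => ?_
    rw [he0 m ω, gamma_eq]
  have hgo := @Pool.Agent.H96.M7.sle_of_levels D φ a b (fun n => Om (X0 A n).E × (ℕ → Bool))
    (fun n => inferInstance) (fun n => (PO (X0 A n).E).prod coins) (fun n => inferInstance)
    (fun n p => c0 n p.1) (fun n p => e0 n p.1) f ε _ _ _ _ 6 (by norm_num) h hData hPar hε hε0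
  refine hgo ?_ ?_ ?_ hfm tf ?_ (K := closedBall 0 R) (isCompact_closedBall _ _) ?_ hlaw
  · -- modulus
    intro r hr T hT η hη
    obtain ⟨η', hη'0, hη'⟩ : ∃ η' : ℝ, 0 < η' ∧ ENNReal.ofReal η' ≤ η := by
      rcases eq_or_ne η ∞ with h1 | h1
      · exact ⟨1, one_pos, by rw [h1]; exact le_top⟩
      · exact ⟨η.toReal, ENNReal.toReal_pos hη.ne' h1, by rw [ENNReal.ofReal_toReal h1]⟩
    obtain ⟨θ, hθ, ε₁, hε₁, hM⟩ := modulus_c h A hG hR (r := r / 2) (η := η' / 2) (T := T)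
      (by positivity) (by positivity) hT.le
    refine ⟨θ / 2, by positivity, ?_⟩
    have g0 : ∀ᶠ n in atTop, A.δ n ≤ r / 8 := A.lim.eventually_le_const (by positivity)
    filter_upwards [hGdE, hM, hε.eventually_le_const hε₁,
      hε.eventually_le_const (show 0 < η' / 2 by positivity), g0] with n g1 g2 g3 g4 g5
    obtain ⟨Bad, g6, g7⟩ := g2
    have g8 := prod_Pr_le g6
    have key : {p : Om (X0 A n).E × (ℕ → Bool) | ∃ j k, j ≤ k ∧ k ≤ (c0 n p.1).J ∧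
        (c0 n p.1).t k ≤ T ∧ (c0 n p.1).t k - (c0 n p.1).t j ≤ θ / 2 ∧
        r < dist ((c0 n p.1).p ((c0 n p.1).Tx j)) ((c0 n p.1).p ((c0 n p.1).Tx k))} ⊆
        {p | p.1 ∈ (Gd A φ (ε n) n (w n) (t n) (N n))ᶜ} ∪ {p | Bad p.1.1} := by
      rintro p ⟨j, k, hjk, hkJ, htk, hd, hdist⟩
      by_contra hcon
      rw [mem_union, not_or] at hcon
      obtain ⟨k1, k2⟩ := hcon
      have k3 : p.1 ∈ Gd A φ (ε n) n (w n) (t n) (N n) := by
        by_contra k4
        exact k1 k4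
      obtain ⟨k4, k5⟩ := hch n p.1 k3
      change k ≤ J n p.1 at hkJ
      change t n k p.1 ≤ T at htk
      change t n k p.1 - t n j p.1 ≤ θ / 2 at hd
      change r < dist (pp A n p.1.1 (Tx n p.1 j)) (pp A n p.1.1 (Tx n p.1 k)) at hdist
      have k6 := k5.chain.dchain.t_mono hjk hkJ
      have k7 := g7 p.1.1 k2 (ε n) (hε0 n) g3 _ _ _ _ _ _ _ k5 j k hjk hkJ (k6.trans htk)
        (by linarith)
      have k8 := pp_dist A n p.1.1 (Tx n p.1 j)
      have k9 := pp_dist A n p.1.1 (Tx n p.1 k)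
      rw [dist_comm] at k9
      have := dist_triangle4 (pp A n p.1.1 (Tx n p.1 j)) (gp A n p.1.1 (Tx n p.1 j))
        (gp A n p.1.1 (Tx n p.1 k)) (pp A n p.1.1 (Tx n p.1 k))
      linarith
    calc _ ≤ _ := measure_mono key
      _ ≤ _ := measure_union_le _ _
      _ ≤ ENNReal.ofReal (ε n) + ENNReal.ofReal (η' / 2) := add_le_add g1 g8
      _ ≤ ENNReal.ofReal (η' / 2) + ENNReal.ofReal (η' / 2) :=
          add_le_add (ENNReal.ofReal_le_ofReal g4) le_rfl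
      _ = ENNReal.ofReal η' := by
          rw [← ENNReal.ofReal_add (by positivity) (by positivity), add_halves]
      _ ≤ η := hη'
  · -- no return
    intro r hr η hη
    obtain ⟨η', hη'0, hη'⟩ : ∃ η' : ℝ, 0 < η' ∧ ENNReal.ofReal η' ≤ η := by
      rcases eq_or_ne η ∞ with h1 | h1
      · exact ⟨1, one_pos, by rw [h1]; exact le_top⟩
      · exact ⟨η.toReal, ENNReal.toReal_pos hη.ne' h1, by rw [ENNReal.ofReal_toReal h1]⟩
    obtain ⟨r₀, hr₀, hret⟩ := hR (r / 2) (by positivity) η' hη'0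
    refine ⟨min (r₀ / 2) r, by positivity, ?_⟩
    have g0 : ∀ᶠ n in atTop, A.δ n ≤ min (r / 2) (r₀ / 2) := A.lim.eventually_le_const (by positivity)
    filter_upwards [hret, g0] with n g1 g2
    have g3 : A.δ n ≤ r / 2 := g2.trans (min_le_left _ _)
    have g4 : A.δ n ≤ r₀ / 2 := g2.trans (min_le_right _ _)
    refine le_trans (measure_mono ?_) ((prod_Pr_le g1).trans hη')
    rintro p ⟨i, i', hii, hin, hd1, hd2⟩
    change i' ≤ (X0 A n).len p.1.1 + 1 at hin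
    change dist (pp A n p.1.1 i) b ≤ min (r₀ / 2) r at hd1
    change r < dist (pp A n p.1.1 i') b at hd2
    have hd3 := hd1.trans (min_le_left _ _)
    have hd4 := hd1.trans (min_le_right _ _)
    have hi : i ≤ (X0 A n).len p.1.1 := by
      by_contra! hcon
      have : i = i' := by omega
      rw [this] at hd4
      linarith
    have k1 : dist (gp A n p.1.1 i) b ≤ r₀ := by
      have := pp_dist A n p.1.1 i
      have := dist_triangle_left (gp A n p.1.1 i) b (pp A n p.1.1 i)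
      linarith
    rcases Nat.lt_or_ge ((X0 A n).len p.1.1) i' with hlt | hge
    · refine ⟨i, (X0 A n).len p.1.1, hi, le_rfl, k1, ?_⟩
      have k2 := pp_last A n p.1.1 ((X0 A n).len p.1.1)
      rw [show (X0 A n).len p.1.1 + 1 = i' by omega] at k2
      have := dist_triangle (pp A n p.1.1 i') (gp A n p.1.1 ((X0 A n).len p.1.1)) b
      linarith
    · refine ⟨i, i', hii, hge, k1, ?_⟩
      have k2 := pp_dist A n p.1.1 i'
      have := dist_triangle (pp A n p.1.1 i') (gp A n p.1.1 i') b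
      linarith
  · -- measurability
    intro m
    have h1 : Measurable (e0 m) := measurable_from_top
    exact h1.comp measurable_fst
  · -- limits of the driving functions
    intro k hk μs ν hμs hν
    have hprob : ∀ m, IsProbabilityMeasure (((PO (X0 A m).E).prod coins).map (f m)) := fun m =>
      Measure.isProbabilityMeasure_map (hfm m).aemeasurable
    set μs' : ℕ → ProbabilityMeasure C(ℝ≥0, ℝ) := fun m =>
      ⟨((PO (X0 A m).E).prod coins).map (f m), hprob m⟩ with hμs'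
    have h1 : (fun m => μs' (k m)) = μs := by
      funext m
      apply Subtype.ext
      exact (hμs m).symm
    exact hW k hk C(ℝ≥0, ℝ) id continuous_id f (fun m => (hfm m).aemeasurable) (fun _ _ => rfl)
      μs' ν (fun _ => rfl) (by rw [h1]; exact hν)
  · -- compactness
    intro m p s
    obtain ⟨y, hy0, hy1, hy2⟩ := he0v m p.1 s
    rw [hy2]
    refine Pool.Agent.H96.M7.pth_mem (A := 0) (B := (c0 m p.1).n) (convex_closedBall _ _) le_rfl
      (by simpa using hy0) hy1 ?_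
    intro i _ _
    rw [mem_closedBall_zero_iff]
    exact hRb m p.1.1 p.1.sub i

lemma limit_aux (hab : a ≠ b) (hA : IsArcs D a b A₁ A₂) (h : IsChart D a b φ)
    (hne : Nonempty (Approx D a b A₁ A₂))
    (hQ : ∀ A : Approx D a b A₁ A₂, ∀ ε > 0, ∀ᶠ n in atTop, Qd A φ ε n)
    (hG : ∀ A : Approx D a b A₁ A₂, ∀ r : ℝ, 0 < r → ∃ r0 ≤ r, ∃ B : Base A r0, StGain' B) :
    ∃ ν : ProbabilityMeasure Curve, Pool.Agent.H82.Q1.IsSLE 6 D a b ν ∧
      ∀ A : Approx D a b A₁ A₂, Tendsto A.law atTop (𝓝 ν) := by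
  obtain ⟨A₀⟩ := hne
  obtain ⟨μ, hμ, -⟩ := limit hab hA h A₀ (hQ A₀) (hG A₀)
  refine ⟨crvLaw μ, hμ.isSLE (by norm_num) h, fun A => ?_⟩
  obtain ⟨μ', hμ', hlim⟩ := limit hab hA h A (hQ A) (hG A)
  have h0 : (μ' : Measure (C(I, ℂ) × C(ℝ≥0, ℝ))) = μ := IsLim.unique (by norm_num) hμ' hμ
  have h1 : μ' = μ := Subtype.ext h0
  rw [h1] at hlim
  exact hlim

end

/-- **Convergence to chordal SLE(6)**: one limit for all approximating sequences. -/
theorem limit_sle {D : Set ℂ} {a b : ℂ} {A₁ A₂ : Set ℂ} {φ : ℂ → ℂ} (hab : a ≠ b)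
    (hA : IsArcs D a b A₁ A₂) (h : IsChart D a b φ) (hne : Nonempty (Approx D a b A₁ A₂))
    (hQ : ∀ A : Approx D a b A₁ A₂, ∀ ε > 0, ∀ᶠ n in atTop, Qd A φ ε n)
    (hG : ∀ A : Approx D a b A₁ A₂, ∀ r : ℝ, 0 < r → ∃ r0 ≤ r, ∃ B : Base A r0, StGain' B) :
    ∃ ν : ProbabilityMeasure Curve, Pool.Agent.H82.Q1.IsSLE 6 D a b ν ∧
      ∀ A : Approx D a b A₁ A₂, Tendsto A.law atTop (𝓝 ν) :=
  by
  have key := @limit_aux D a b A₁ A₂ φ (borel C(I, ℂ))
  have key2 := @key (@BorelSpace.mk _ _ (borel C(I, ℂ)) rfl) (borel C(ℝ≥0, ℝ))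
    (@BorelSpace.mk _ _ (borel C(ℝ≥0, ℝ)) rfl)
  exact key2 hab hA h hne hQ hG

end Pool.Agent.H11.M7
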