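import Pool.Agent.H14.Jordan.Bridge
import Pool.Agent.H83.Lo.Inj

set_option autoImplicit false
open Set Filter Topology Metric Complex
open scoped Real
open Pool.Agent.H14.Jordan

/-! J19(b), part 1: the boundary values of a conformal map of the disk give a positively oriented
parametrisation of the boundary. -/

namespace Pool.Agent.H11.M7

variable {F : ℂ → ℂ}

/-- the quotient `(F ζ - F 0) / ζ` has a continuous logarithm on the closed disk -/
lemma disk_log (hc : ContinuousOn F (closedBall 0 1)) (hi : InjOn F (closedBall 0 1))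
    (hd : DifferentiableOn ℂ F (ball 0 1)) :
    ∃ L : ℂ → ℂ, ContinuousOn L (closedBall 0 1) ∧
      ∀ ζ ∈ closedBall (0:ℂ) 1, exp (L ζ) * ζ = F ζ - F 0 := by
  have h0 : (0:ℂ) ∈ ball (0:ℂ) 1 := mem_ball_self one_pos
  have hn : closedBall (0:ℂ) 1 ∈ 𝓝 (0:ℂ) := closedBall_mem_nhds 0 one_pos
  have h1 : ContinuousOn (dslope F 0) (closedBall 0 1) :=
    (continuousOn_dslope hn).2 ⟨hc, hd.differentiableAt (isOpen_ball.mem_nhds h0)⟩
  have h2 : ∀ x ∈ closedBall (0:ℂ) 1, dslope F 0 x ≠ 0 := by
    intro x hx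
    rcases eq_or_ne x 0 with rfl | hx0
    · rw [dslope_same]
      exact Pool.Agent.H83.Lo.deriv_ne_zero isOpen_ball hd (hi.mono ball_subset_closedBall) h0
    · rw [dslope_of_ne _ hx0, slope_def_field]
      refine div_ne_zero (sub_ne_zero.2 fun e => hx0 (hi hx (ball_subset_closedBall h0) e)) ?_
      rwa [sub_zero]
  obtain ⟨L, hL, hL'⟩ := Triv.of_convex (convex_closedBall (0:ℂ) 1) _ h1 h2
  refine ⟨L, hL, fun ζ hζ => ?_⟩
  rw [hL' ζ hζ]
  rcases eq_or_ne ζ 0 with rfl | hx0
  · simp
  · rw [dslope_of_ne _ hx0, slope_def_field, sub_zero]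
    field_simp

/-- the parametrisation of the circle starting at `-1` -/
noncomputable def cir (t : ℝ) : ℂ := -exp (t * I)

lemma cir_norm (t : ℝ) : ‖cir t‖ = 1 := by
  rw [cir, norm_neg, norm_exp_ofReal_mul_I]

lemma cir_mem (t : ℝ) : cir t ∈ closedBall (0:ℂ) 1 := by
  rw [mem_closedBall_zero_iff, cir_norm]

lemma cir_cont : Continuous cir := by
  unfold cir
  fun_prop

lemma cir_add (t : ℝ) : cir (t + 2 * π) = cir t := by
  unfold cir
  congr 1
  rw [exp_eq_exp_iff_exists_int]
  exact ⟨1, by push_cast; ring⟩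

lemma cir_exp (t : ℝ) : cir t = exp ((t + π) * I) := by
  unfold cir
  rw [add_mul, exp_add, exp_pi_mul_I]
  ring

theorem disk_jd (hc : ContinuousOn F (closedBall 0 1)) (hi : InjOn F (closedBall 0 1))
    (ho : IsOpen (F '' ball 0 1)) : IsJD (F '' ball 0 1) (fun t => F (cir t)) where
  loop := by
    have h1 := isLoop_of_circle (J := fun z : Circle => F (-(z : ℂ))) ?_ ?_
    · convert h1 using 2 with t
      rw [cir, Circle.coe_exp]
    · refine hc.comp_continuous (by fun_prop) fun z => ?_
      rw [mem_closedBall_zero_iff, norm_neg, Circle.norm_coe]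
    · intro z w h
      have hz : -(z : ℂ) ∈ closedBall (0:ℂ) 1 := by
        rw [mem_closedBall_zero_iff, norm_neg, Circle.norm_coe]
      have hw : -(w : ℂ) ∈ closedBall (0:ℂ) 1 := by
        rw [mem_closedBall_zero_iff, norm_neg, Circle.norm_coe]
      have := hi hz hw h
      exact Circle.ext (neg_injective this)
  isOpen := ho
  conn := ((convex_ball (0:ℂ) 1).isPreconnected.image _ (hc.mono ball_subset_closedBall)
    |> fun h => ⟨⟨F 0, 0, mem_ball_self one_pos, rfl⟩, h⟩)
  bdd := ((isCompact_closedBall (0:ℂ) 1).image_of_continuousOn hc).isBounded.subset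
    (image_mono ball_subset_closedBall)
  fr := by
    have hcl : closure (F '' ball 0 1) = F '' closedBall 0 1 := by
      apply Subset.antisymm
      · exact closure_minimal (image_mono ball_subset_closedBall)
          ((isCompact_closedBall (0:ℂ) 1).image_of_continuousOn hc).isClosed
      · have h1 : closure (ball (0:ℂ) 1) = closedBall 0 1 := closure_ball 0 one_ne_zero
        rw [← h1]
        apply ContinuousOn.image_closure
        rw [h1]
        exact hc
    rw [frontier, hcl, ho.interior_eq]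
    ext x
    constructor
    · rintro ⟨⟨ζ, hζ, rfl⟩, h2⟩
      have h3 : ‖ζ‖ = 1 := by
        rw [mem_closedBall_zero_iff] at hζ
        apply le_antisymm hζ
        by_contra hcon
        push Not at hcon
        exact h2 ⟨ζ, by rwa [mem_ball_zero_iff], rfl⟩
      refine ⟨arg (-ζ), ?_⟩
      simp only
      congr 1
      rw [cir]
      have h4 := norm_mul_exp_arg_mul_I (-ζ)
      rw [norm_neg, h3, ofReal_one, one_mul] at h4
      rw [h4, neg_neg]
    · rintro ⟨t, rfl⟩
      refine ⟨⟨cir t, cir_mem t, rfl⟩, ?_⟩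
      rintro ⟨ζ, hζ, he⟩
      have h5 := hi (ball_subset_closedBall hζ) (cir_mem t) he
      rw [mem_ball_zero_iff, h5, cir_norm] at hζ
      exact lt_irrefl _ hζ

theorem disk_lift (hc : ContinuousOn F (closedBall 0 1)) (hi : InjOn F (closedBall 0 1))
    (hd : DifferentiableOn ℂ F (ball 0 1)) :
    ∃ L : ℝ → ℂ, Continuous L ∧ (∀ t, exp (L t) = F (cir t) - F 0) ∧
      ∀ t, (L (t + 2 * π)).im = (L t).im + 2 * π := by
  obtain ⟨L, hL, hL'⟩ := disk_log hc hi hd
  refine ⟨fun t => L (cir t) + (t + π) * I, ?_, ?_, ?_⟩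
  · exact (hL.comp_continuous cir_cont cir_mem).add (by fun_prop)
  · intro t
    rw [exp_add, ← cir_exp, hL' _ (cir_mem t)]
  · intro t
    simp only [cir_add]
    simp
    ring

end Pool.Agent.H11.M7
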