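import Pool.Agent.H11.M7.Ori1
import Pool.Agent.H11.M7.Path
import Pool.Agent.H96.M7.Chart
import Pool.Agent.H42.MJ.Main

set_option autoImplicit false
open Set Filter Topology Metric Complex
open scoped Real
open Pool.Agent.H14.Jordan
open Pool.Agent.H81.Q1 (pt DDomain Approx IsJordanDomain IsArcs)
open Pool.Agent.H82.Q1 (HH cHH IsChart posArc negArc)
open Pool.Agent.H42.MJ (IsComponent jTop)

/-! J19(b), part 2: the boundary parametrisation given by a chart, and Corollary A with the arcs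
`posArc`, `negArc`. -/

namespace Pool.Agent.H11.M7

variable {D : Set ℂ} {a b : ℂ} {φ : ℂ → ℂ}

/-- the Cayley transform of the disk onto the half plane -/
noncomputable def cay (ζ : ℂ) : ℂ := I * (1 + ζ) / (1 - ζ)

lemma cay_im (ζ : ℂ) : (cay ζ).im = (1 - ‖ζ‖ ^ 2) / ‖1 - ζ‖ ^ 2 := by
  rw [cay, div_im, ← normSq_eq_norm_sq, ← normSq_eq_norm_sq, ← sub_div]
  congr 1
  simp [normSq_apply]
  ring

lemma cay_re (ζ : ℂ) : (cay ζ).re = - 2 * ζ.im / ‖1 - ζ‖ ^ 2 := by
  rw [cay, div_re, ← normSq_eq_norm_sq, ← add_div]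
  congr 1
  simp
  ring

lemma norm_sub_pos {ζ : ℂ} (h : ζ ≠ 1) : 0 < ‖1 - ζ‖ ^ 2 := by
  have : 0 < ‖1 - ζ‖ := norm_pos_iff.2 (sub_ne_zero.2 h.symm)
  positivity

lemma cay_cHH {ζ : ℂ} (h : ζ ∈ closedBall (0:ℂ) 1) : cay ζ ∈ cHH := by
  change (0:ℝ) ≤ (cay ζ).im
  rw [cay_im]
  rw [mem_closedBall_zero_iff] at h
  have := norm_nonneg ζ
  apply div_nonneg
  · nlinarith
  · positivity

lemma cay_HH {ζ : ℂ} (h : ζ ∈ ball (0:ℂ) 1) : cay ζ ∈ HH := by
  change (0:ℝ) < (cay ζ).im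
  rw [cay_im]
  rw [mem_ball_zero_iff] at h
  have h1 := norm_nonneg ζ
  apply div_pos
  · nlinarith
  · apply norm_sub_pos
    rintro rfl
    simp at h

/-- the inverse of the Cayley transform -/
noncomputable def yac (w : ℂ) : ℂ := (w - I) / (w + I)

lemma add_I_ne {w : ℂ} (h : w ∈ cHH) : w + I ≠ 0 := by
  intro e
  have h1 : (0:ℝ) ≤ w.im := h
  have h2 := congrArg im e
  simp at h2
  linarith

lemma cay_yac {w : ℂ} (h : w ∈ cHH) : cay (yac w) = w := by
  have h1 := add_I_ne h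
  rw [cay, yac]
  have h2 : 1 - (w - I) / (w + I) = 2 * I / (w + I) := by
    field_simp
    ring
  have h3 : 1 + (w - I) / (w + I) = 2 * w / (w + I) := by
    field_simp
    ring
  rw [h2, h3]
  field_simp

lemma yac_ne {w : ℂ} (h : w ∈ cHH) : yac w ≠ 1 := by
  intro e
  rw [yac, div_eq_one_iff_eq (add_I_ne h)] at e
  have h1 := congrArg im e
  simp at h1
  linarith

lemma yac_cay {ζ : ℂ} (h : ζ ≠ 1) : yac (cay ζ) = ζ := by
  have h1 : (1 - ζ) ≠ 0 := sub_ne_zero.2 h.symm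
  rw [cay, yac]
  have h2 : I * (1 + ζ) / (1 - ζ) - I = 2 * I * ζ / (1 - ζ) := by
    field_simp
    ring
  have h3 : I * (1 + ζ) / (1 - ζ) + I = 2 * I / (1 - ζ) := by
    field_simp
    ring
  rw [h2, h3]
  field_simp

lemma yac_norm (w : ℂ) (h : w ∈ cHH) : ‖yac w‖ ^ 2 = 1 - 4 * w.im / ‖w + I‖ ^ 2 := by
  have h1 : ‖w + I‖ ^ 2 ≠ 0 := by
    have := norm_pos_iff.2 (add_I_ne h)
    positivity
  rw [yac, norm_div, div_pow, eq_sub_iff_add_eq, ← add_div, div_eq_one_iff_eq h1,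
    ← normSq_eq_norm_sq, ← normSq_eq_norm_sq]
  simp [normSq_apply]
  ring

lemma yac_mem {w : ℂ} (h : w ∈ cHH) : yac w ∈ closedBall (0:ℂ) 1 := by
  rw [mem_closedBall_zero_iff]
  have h1 := yac_norm w h
  have h2 : 0 ≤ 4 * w.im / ‖w + I‖ ^ 2 := by
    have : (0:ℝ) ≤ w.im := h
    positivity
  have h3 := norm_nonneg (yac w)
  nlinarith

lemma yac_ball {w : ℂ} (h : w ∈ HH) : yac w ∈ ball (0:ℂ) 1 := by
  rw [mem_ball_zero_iff]
  have h1 := yac_norm w (HH_sub h)
  have h2 : 0 < 4 * w.im / ‖w + I‖ ^ 2 := by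
    have : (0:ℝ) < w.im := h
    have := norm_pos_iff.2 (add_I_ne (HH_sub h))
    positivity
  have h3 := norm_nonneg (yac w)
  nlinarith

lemma yac_one {x : ℝ} : ‖yac x‖ = 1 := by
  have hx : (x : ℂ) ∈ cHH := by
    change (0:ℝ) ≤ (x : ℂ).im
    simp
  have h1 := yac_norm x hx
  rw [ofReal_im, mul_zero, zero_div, sub_zero] at h1
  have h3 := norm_nonneg (yac x)
  nlinarith

/-- the chart on the disk -/
noncomputable def FF (φ : ℂ → ℂ) (b : ℂ) (ζ : ℂ) : ℂ := if ζ = 1 then b else φ (cay ζ)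

lemma FF_one : FF φ b 1 = b := by simp [FF]

lemma FF_of {ζ : ℂ} (h : ζ ≠ 1) : FF φ b ζ = φ (cay ζ) := by simp [FF, h]

lemma cay_contAt {ζ : ℂ} (h : ζ ≠ 1) : ContinuousAt cay ζ := by
  have h1 : (1 - ζ) ≠ 0 := sub_ne_zero.2 h.symm
  unfold cay
  fun_prop (disch := assumption)

lemma cay_diffAt {ζ : ℂ} (h : ζ ≠ 1) : DifferentiableAt ℂ cay ζ := by
  have h1 : (1 - ζ) ≠ 0 := sub_ne_zero.2 h.symm
  unfold cay
  fun_prop (disch := assumption)

lemma FF_inj (h : IsChart D a b φ) : InjOn (FF φ b) (closedBall 0 1) := by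
  intro z hz w hw e
  by_cases h1 : z = 1
  · by_cases h2 : w = 1
    · rw [h1, h2]
    · rw [h1, FF_one, FF_of h2] at e
      exact absurd ⟨cay w, cay_cHH hw, e.symm⟩ h.ne
  · by_cases h2 : w = 1
    · rw [h2, FF_one, FF_of h1] at e
      exact absurd ⟨cay z, cay_cHH hz, e⟩ h.ne
    · rw [FF_of h1, FF_of h2] at e
      rw [← yac_cay h1, ← yac_cay h2, h.inj (cay_cHH hz) (cay_cHH hw) e]

lemma FF_cont (h : IsChart D a b φ) : ContinuousOn (FF φ b) (closedBall 0 1) := by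
  intro z hz
  by_cases h1 : z = 1
  · subst h1
    rw [ContinuousWithinAt, FF_one, Metric.tendsto_nhds]
    intro ε hε
    obtain ⟨R, hR⟩ := Pool.Agent.H96.M7.chart_far h hε
    rw [eventually_nhdsWithin_iff, Metric.eventually_nhds_iff]
    refine ⟨1 / (|R| + 2), by positivity, ?_⟩
    intro y hy hy'
    by_cases h2 : y = 1
    · rw [h2, FF_one, dist_self]
      exact hε
    · rw [FF_of h2]
      apply hR _ (cay_cHH hy')
      rw [cay, norm_div, norm_mul, norm_I, one_mul]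
      have h3 : ‖1 - y‖ < 1 / (|R| + 2) := by
        rw [dist_eq_norm] at hy
        rwa [norm_sub_rev]
      have h4 : 0 < ‖1 - y‖ := norm_pos_iff.2 (sub_ne_zero.2 (Ne.symm h2))
      have h5 : 1 / (|R| + 2) ≤ 1 / 2 := by
        apply one_div_le_one_div_of_le (by norm_num)
        have := abs_nonneg R
        linarith
      have h6 : 1 ≤ ‖1 + y‖ := by
        have h7 := norm_add_le (1 + y) (1 - y)
        have h8 : (1 + y) + (1 - y) = 2 := by ring
        rw [h8] at h7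
        have h9 : ‖(2:ℂ)‖ = 2 := by simp
        linarith
      rw [lt_div_iff₀ h4]
      rw [lt_div_iff₀ (by positivity)] at h3
      have h10 := le_abs_self R
      nlinarith
  · have h2 : ContinuousWithinAt (fun ζ => φ (cay ζ)) (closedBall 0 1) z := by
      have h3 : ContinuousWithinAt φ cHH (cay z) := h.cont _ (cay_cHH hz)
      exact h3.comp (cay_contAt h1).continuousWithinAt fun y hy => cay_cHH hy
    refine h2.congr_of_eventuallyEq ?_ (FF_of h1)
    filter_upwards [nhdsWithin_le_nhds (isOpen_ne.mem_nhds h1)] with y hy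
    exact FF_of hy

lemma FF_diff (h : IsChart D a b φ) : DifferentiableOn ℂ (FF φ b) (ball 0 1) := by
  intro z hz
  have h1 : z ≠ 1 := by
    rintro rfl
    simp at hz
  apply DifferentiableAt.differentiableWithinAt
  have h2 : DifferentiableAt ℂ (fun ζ => φ (cay ζ)) z :=
    (h.diff.differentiableAt (isOpen_HH.mem_nhds (cay_HH hz))).comp z (cay_diffAt h1)
  refine h2.congr_of_eventuallyEq ?_
  filter_upwards [isOpen_ne.mem_nhds h1] with y hy
  exact FF_of hy

lemma FF_image (h : IsChart D a b φ) : FF φ b '' ball 0 1 = D := by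
  rw [← h.image]
  ext x
  constructor
  · rintro ⟨z, hz, rfl⟩
    have h1 : z ≠ 1 := by
      rintro rfl
      simp at hz
    exact ⟨cay z, cay_HH hz, (FF_of h1).symm⟩
  · rintro ⟨w, hw, rfl⟩
    refine ⟨yac w, yac_ball hw, ?_⟩
    rw [FF_of (yac_ne (HH_sub hw)), cay_yac (HH_sub hw)]

/-- the boundary parametrisation -/
noncomputable def rho (φ : ℂ → ℂ) (b : ℂ) (t : ℝ) : ℂ := FF φ b (cir t)

lemma cir_re (t : ℝ) : (cir t).re = -Real.cos t := by
  rw [cir, neg_re, exp_ofReal_mul_I_re]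

lemma cir_im (t : ℝ) : (cir t).im = -Real.sin t := by
  rw [cir, neg_im, exp_ofReal_mul_I_im]

lemma cir_pi : cir π = 1 := by
  rw [cir, exp_pi_mul_I, neg_neg]

lemma cir_zero : cir 0 = -1 := by
  rw [cir]
  simp

lemma rho_zero (h : IsChart D a b φ) : rho φ b 0 = a := by
  rw [rho, cir_zero, FF_of (by norm_num), ← h.zero]
  congr 1
  simp [cay]

lemma rho_pi : rho φ b π = b := by
  rw [rho, cir_pi, FF_one]

lemma cay_cir (t : ℝ) : (cay (cir t)).im = 0 ∧
    (cay (cir t)).re = 2 * Real.sin t / ‖1 - cir t‖ ^ 2 := by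
  rw [cay_im, cay_re, cir_norm, cir_im]
  constructor
  · simp
  · congr 1
    ring

lemma cir_arg {x : ℝ} : cir (arg (-yac x)) = yac x := by
  rw [cir]
  have h4 := norm_mul_exp_arg_mul_I (-yac x)
  rw [norm_neg, yac_one, ofReal_one, one_mul] at h4
  rw [h4, neg_neg]

lemma yac_im (x : ℝ) : (-yac x).im = 2 * x / (x ^ 2 + 1) := by
  rw [neg_im, yac, div_im]
  have h1 : normSq ((x:ℂ) + I) = x ^ 2 + 1 := by
    simp [normSq_apply]
    ring
  rw [h1]
  simp
  field_simp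
  ring

lemma rho_yac {x : ℝ} {t : ℝ} (h : cir t = yac x) : rho φ b t = φ x := by
  have hx : (x : ℂ) ∈ cHH := by
    change (0:ℝ) ≤ (x : ℂ).im
    simp
  rw [rho, h, FF_of (yac_ne hx), cay_yac hx]

theorem rho_pos : rho φ b '' Icc 0 π = posArc φ b := by
  ext y
  constructor
  · rintro ⟨t, ht, rfl⟩
    by_cases h1 : cir t = 1
    · left
      rw [rho, h1, FF_one]
    · right
      rw [rho, FF_of h1]
      refine ⟨cay (cir t), ⟨(cay_cir t).1, ?_⟩, rfl⟩
      rw [(cay_cir t).2]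
      have := Real.sin_nonneg_of_mem_Icc ht
      positivity
  · rintro (rfl | ⟨z, ⟨h1, h2⟩, rfl⟩)
    · exact ⟨π, ⟨Real.pi_pos.le, le_rfl⟩, rho_pi⟩
    · obtain ⟨x, rfl⟩ : ∃ x : ℝ, z = x := ⟨z.re, by apply Complex.ext <;> simp [h1]⟩
      rw [ofReal_re] at h2
      refine ⟨arg (-yac x), ⟨?_, arg_le_pi _⟩, rho_yac cir_arg⟩
      rw [arg_nonneg_iff, yac_im]
      positivity

theorem rho_neg : rho φ b '' Icc π (0 + 2 * π) = negArc φ b := by
  ext y
  constructor
  · rintro ⟨t, ht, rfl⟩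
    by_cases h1 : cir t = 1
    · left
      rw [rho, h1, FF_one]
    · right
      rw [rho, FF_of h1]
      refine ⟨cay (cir t), ⟨(cay_cir t).1, ?_⟩, rfl⟩
      rw [(cay_cir t).2]
      have h2 : Real.sin t ≤ 0 := by
        have h3 := Real.sin_nonneg_of_mem_Icc (x := t - π) ⟨by linarith [ht.1], by linarith [ht.2]⟩
        rw [Real.sin_sub_pi] at h3
        linarith
      apply div_nonpos_of_nonpos_of_nonneg
      · linarith
      · positivity
  · rintro (rfl | ⟨z, ⟨h1, h2⟩, rfl⟩)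
    · exact ⟨π, ⟨le_rfl, by linarith [Real.pi_pos]⟩, rho_pi⟩
    · obtain ⟨x, rfl⟩ : ∃ x : ℝ, z = x := ⟨z.re, by apply Complex.ext <;> simp [h1]⟩
      rw [ofReal_re] at h2
      rcases h2.eq_or_lt with rfl | h3
      · refine ⟨0 + 2 * π, ⟨by linarith [Real.pi_pos], le_rfl⟩, ?_⟩
        apply rho_yac
        rw [cir_add, cir_zero, yac]
        simp
      · refine ⟨arg (-yac x) + 2 * π, ⟨?_, ?_⟩, rho_yac (by rw [cir_add, cir_arg])⟩
        · have := neg_pi_lt_arg (-yac x)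
          linarith
        · have : arg (-yac x) < 0 := by
            rw [arg_neg_iff, yac_im]
            apply div_neg_of_neg_of_pos
            · linarith
            · positivity
          linarith

lemma rho_jd (h : IsChart D a b φ) : IsJD D (rho φ b) := by
  have h1 := disk_jd (FF_cont h) (FF_inj h) (by rw [FF_image h]; exact chart_open h)
  rw [FF_image h] at h1
  exact h1

/-- **Corollary A with the arcs of a chart.** -/
theorem corollaryA' (hD : IsJordanDomain D) (h : IsChart D a b φ) (δ : ℕ → ℝ) (X : ℕ → DDomain)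
    (pos : ∀ n, 0 < δ n) (lim : Tendsto δ atTop (𝓝 0))
    (hX : ∀ n, IsComponent D (δ n) (X n).V (X n).E)
    (limα : Tendsto (fun n => pt (δ n) (X n).α.1) atTop (𝓝 a))
    (limβ : Tendsto (fun n => pt (δ n) (X n).β.1) atTop (𝓝 b)) :
    ∃ A : Approx D a b (posArc φ b) (negArc φ b), A.δ = δ ∧ A.X = X := by
  obtain ⟨L, hLc, hL, hL2⟩ := disk_lift (FF_cont h) (FF_inj h) (FF_diff h)
  have hz0 : FF φ b 0 ∈ D := by
    rw [← FF_image h]
    exact ⟨0, mem_ball_self one_pos, rfl⟩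
  have hπ := Real.pi_pos
  have key := Pool.Agent.H42.MJ.approx_of_param (jTop hD) (rho_jd h) hz0 hLc hL hL2
    (by positivity) (sa := 0) (sb := π) hπ (by linarith) δ X pos lim hX
    (by rw [rho_zero h]; exact limα) (by rw [rho_pi]; exact limβ)
  rw [rho_zero h, rho_pi, rho_pos, rho_neg] at key
  exact key

/-- The arcs of a chart are the two arcs. -/
theorem isArcs_chart (h : IsChart D a b φ) : IsArcs D a b (posArc φ b) (negArc φ b) := by
  have hJ := rho_jd h
  have hπ := Real.pi_pos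
  have h1 : (0:ℝ) < π := hπ
  have h2 : π < 0 + 2 * π := by linarith
  have key : IsArcs D (rho φ b 0) (rho φ b π) (rho φ b '' Icc 0 π)
      (rho φ b '' Icc π (0 + 2 * π)) :=
    ⟨(hJ.loop.arc_compact _ _).isClosed, (hJ.loop.arc_compact _ _).isClosed,
      ⟨⟨_, 0, ⟨le_rfl, h1.le⟩, rfl⟩, hJ.loop.arc_preconnected _ _⟩,
      ⟨⟨_, π, ⟨le_rfl, h2.le⟩, rfl⟩, hJ.loop.arc_preconnected _ _⟩,
      by rw [hJ.fr, hJ.loop.range_eq_union h1.le h2.le], hJ.loop.inter_arcs h1 h2⟩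
  rw [rho_zero h, rho_pi, rho_pos, rho_neg] at key
  exact key

end Pool.Agent.H11.M7
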